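import Pool.Agent.Restart.Defs

/-!
A system with Riesz bounds and dense span is a Schauder basis.
-/

namespace Pool.Agent.Restart

open MeasureTheory Filter Topology

section Riesz

variable {E : Type*} [NormedAddCommGroup E] [NormedSpace ℂ E] [CompleteSpace E]
variable {φ : ℕ → E} {m M : ℝ}

/-- The sequence space. -/
abbrev Seq : Type := lp (fun _ : ℕ => ℂ) 2

lemma seq_summable (c : Seq) : Summable fun i => ‖c i‖ ^ 2 := by
  have h := lp.memℓp c
  rw [memℓp_gen_iff (by norm_num)] at h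
  simpa using h

lemma seq_norm_sq (c : Seq) : ‖c‖ ^ 2 = ∑' i, ‖c i‖ ^ 2 := by
  have h := lp.norm_rpow_eq_tsum (p := 2) (by norm_num) c
  simpa using h

lemma summable_smul (hM : ∀ (s : Finset ℕ) (c : ℕ → ℂ),
    ‖∑ i ∈ s, c i • φ i‖ ^ 2 ≤ M * ∑ i ∈ s, ‖c i‖ ^ 2) (c : Seq) :
    Summable fun i => c i • φ i := by
  rw [summable_iff_vanishing_norm]
  intro ε hε
  have h := (summable_iff_vanishing_norm.1 (seq_summable c)) (ε ^ 2 / (|M| + 1)) (by positivity)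
  obtain ⟨s, hs⟩ := h
  refine ⟨s, fun t ht => ?_⟩
  have h1 := hs t ht
  rw [Real.norm_of_nonneg (Finset.sum_nonneg fun i _ => by positivity)] at h1
  have h2 := hM t c
  have h3 : M * ∑ i ∈ t, ‖c i‖ ^ 2 < ε ^ 2 := by
    have h4 : M * ∑ i ∈ t, ‖c i‖ ^ 2 ≤ |M| * ∑ i ∈ t, ‖c i‖ ^ 2 :=
      mul_le_mul_of_nonneg_right (le_abs_self M) (Finset.sum_nonneg fun i _ => by positivity)
    have h5 : (|M| + 1) * ∑ i ∈ t, ‖c i‖ ^ 2 < ε ^ 2 := by
      rw [lt_div_iff₀ (by positivity)] at h1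
      linarith
    have h6 : 0 ≤ ∑ i ∈ t, ‖c i‖ ^ 2 := Finset.sum_nonneg fun i _ => by positivity
    nlinarith
  exact lt_of_pow_lt_pow_left₀ 2 hε.le (h2.trans_lt h3)

/-- The synthesis map. -/
noncomputable def synth (hM : ∀ (s : Finset ℕ) (c : ℕ → ℂ),
    ‖∑ i ∈ s, c i • φ i‖ ^ 2 ≤ M * ∑ i ∈ s, ‖c i‖ ^ 2) : Seq →ₗ[ℂ] E where
  toFun c := ∑' i, c i • φ i
  map_add' c d := by
    rw [← (summable_smul hM c).tsum_add (summable_smul hM d)]
    simp [add_smul]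
  map_smul' a c := by
    simp only [lp.coeFn_smul, Pi.smul_apply, smul_eq_mul, RingHom.id_apply, mul_smul]
    exact (summable_smul hM c).tsum_const_smul a

lemma synth_hasSum (hM : ∀ (s : Finset ℕ) (c : ℕ → ℂ),
    ‖∑ i ∈ s, c i • φ i‖ ^ 2 ≤ M * ∑ i ∈ s, ‖c i‖ ^ 2) (c : Seq) :
    HasSum (fun i => c i • φ i) (synth hM c) := (summable_smul hM c).hasSum

lemma synth_upper (hM : ∀ (s : Finset ℕ) (c : ℕ → ℂ),
    ‖∑ i ∈ s, c i • φ i‖ ^ 2 ≤ M * ∑ i ∈ s, ‖c i‖ ^ 2) (c : Seq) :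
    ‖synth hM c‖ ^ 2 ≤ M * ‖c‖ ^ 2 := by
  rw [seq_norm_sq]
  exact le_of_tendsto_of_tendsto ((synth_hasSum hM c).norm.pow 2)
    ((seq_summable c).hasSum.const_mul M) (Eventually.of_forall fun s => hM s c)

lemma synth_lower (hM : ∀ (s : Finset ℕ) (c : ℕ → ℂ),
    ‖∑ i ∈ s, c i • φ i‖ ^ 2 ≤ M * ∑ i ∈ s, ‖c i‖ ^ 2)
    (hm : ∀ (s : Finset ℕ) (c : ℕ → ℂ),
    m * ∑ i ∈ s, ‖c i‖ ^ 2 ≤ ‖∑ i ∈ s, c i • φ i‖ ^ 2) (c : Seq) :
    m * ‖c‖ ^ 2 ≤ ‖synth hM c‖ ^ 2 := by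
  rw [seq_norm_sq]
  exact le_of_tendsto_of_tendsto ((seq_summable c).hasSum.const_mul m)
    ((synth_hasSum hM c).norm.pow 2) (Eventually.of_forall fun s => hm s c)

/-- The synthesis map as a continuous linear map. -/
noncomputable def synthL (hM : ∀ (s : Finset ℕ) (c : ℕ → ℂ),
    ‖∑ i ∈ s, c i • φ i‖ ^ 2 ≤ M * ∑ i ∈ s, ‖c i‖ ^ 2) : Seq →L[ℂ] E :=
  (synth hM).mkContinuous (Real.sqrt |M|) fun c => by
    rw [← Real.sqrt_sq (norm_nonneg (synth hM c)), ← Real.sqrt_sq (norm_nonneg c),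
      ← Real.sqrt_mul (abs_nonneg M)]
    refine Real.sqrt_le_sqrt ((synth_upper hM c).trans ?_)
    exact mul_le_mul_of_nonneg_right (le_abs_self M) (sq_nonneg _)

lemma synthL_apply (hM : ∀ (s : Finset ℕ) (c : ℕ → ℂ),
    ‖∑ i ∈ s, c i • φ i‖ ^ 2 ≤ M * ∑ i ∈ s, ‖c i‖ ^ 2) (c : Seq) : synthL hM c = synth hM c := rfl

/-- The finite sequence with entries `c i` for `i < n`. -/
noncomputable def trunc (c : ℕ → ℂ) (n : ℕ) : Seq :=
  ∑ i ∈ Finset.range n, lp.single 2 i (c i)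

lemma synth_single (hM : ∀ (s : Finset ℕ) (c : ℕ → ℂ),
    ‖∑ i ∈ s, c i • φ i‖ ^ 2 ≤ M * ∑ i ∈ s, ‖c i‖ ^ 2) (i : ℕ) (z : ℂ) :
    synth hM (lp.single 2 i z) = z • φ i := by
  have h := synth_hasSum hM (lp.single 2 i z)
  have h2 : HasSum (fun j => (lp.single 2 i z : Seq) j • φ j) (z • φ i) := by
    have := hasSum_single (f := fun j => (lp.single 2 i z : Seq) j • φ j) i (fun j hj => by
      simp [hj])
    simpa using this
  exact h.unique h2

lemma synth_trunc (hM : ∀ (s : Finset ℕ) (c : ℕ → ℂ),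
    ‖∑ i ∈ s, c i • φ i‖ ^ 2 ≤ M * ∑ i ∈ s, ‖c i‖ ^ 2) (c : ℕ → ℂ) (n : ℕ) :
    synth hM (trunc c n) = ∑ i ∈ Finset.range n, c i • φ i := by
  unfold trunc
  rw [map_sum]
  exact Finset.sum_congr rfl fun i _ => synth_single hM i _

lemma trunc_apply (c : ℕ → ℂ) {n i : ℕ} (h : i < n) : trunc c n i = c i := by
  unfold trunc
  rw [lp.coeFn_sum, Finset.sum_apply, Finset.sum_eq_single i]
  · simp
  · intro j _ hj
    simp [hj.symm]
  · intro h'
    exact absurd (Finset.mem_range.2 h) h'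

theorem isSchauderBasis_of_riesz (hm0 : 0 < m) (hM : ∀ (s : Finset ℕ) (c : ℕ → ℂ),
    ‖∑ i ∈ s, c i • φ i‖ ^ 2 ≤ M * ∑ i ∈ s, ‖c i‖ ^ 2)
    (hm : ∀ (s : Finset ℕ) (c : ℕ → ℂ),
    m * ∑ i ∈ s, ‖c i‖ ^ 2 ≤ ‖∑ i ∈ s, c i • φ i‖ ^ 2)
    (hd : Dense (Submodule.span ℂ (Set.range φ) : Set E)) : IsSchauderBasis φ := by
  have hbound : ∀ c : Seq, ‖c‖ ≤ Real.sqrt (1 / m) * ‖synth hM c‖ := by
    intro c
    rw [← Real.sqrt_sq (norm_nonneg (synth hM c)), ← Real.sqrt_sq (norm_nonneg c),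
      ← Real.sqrt_mul (by positivity)]
    refine Real.sqrt_le_sqrt ?_
    rw [one_div, inv_mul_eq_div, le_div_iff₀ hm0, mul_comm]
    exact synth_lower hM hm c
  have hanti : AntilipschitzWith (Real.toNNReal (Real.sqrt (1 / m))) (synthL hM) := by
    refine AddMonoidHomClass.antilipschitz_of_bound (synthL hM) fun c => ?_
    rw [Real.coe_toNNReal _ (Real.sqrt_nonneg _)]
    exact hbound c
  have hinj : Function.Injective (synthL hM) := hanti.injective
  have hclosed : IsClosed (Set.range (synthL hM)) :=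
    hanti.isClosed_range (synthL hM).uniformContinuous
  have hsurj : Function.Surjective (synthL hM) := by
    rw [← Set.range_eq_univ, ← hclosed.closure_eq]
    refine Set.eq_univ_of_univ_subset ?_
    rw [← hd.closure_eq]
    refine closure_mono ?_
    have : (Submodule.span ℂ (Set.range φ)) ≤ LinearMap.range (synthL hM).toLinearMap := by
      rw [Submodule.span_le]
      rintro _ ⟨i, rfl⟩
      exact ⟨lp.single 2 i 1, by
        change synth hM _ = _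
        rw [synth_single, one_smul]⟩
    intro x hx
    exact this hx
  intro f
  obtain ⟨c, rfl⟩ := hsurj f
  refine ⟨fun i => c i, (synth_hasSum hM c).tendsto_sum_nat, ?_⟩
  intro d hdt
  have h1 : Tendsto (fun n => synthL hM (trunc d n)) atTop (𝓝 (synthL hM c)) := by
    refine hdt.congr fun n => ?_
    rw [synthL_apply, synth_trunc]
  have h2 : Tendsto (fun n => trunc d n) atTop (𝓝 c) := by
    have := hanti.isUniformInducing (synthL hM).uniformContinuous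
    exact (this.isInducing.tendsto_nhds_iff).2 h1
  funext i
  have h3 : Tendsto (fun n => trunc d n i) atTop (𝓝 (c i)) := by
    have hc : Continuous fun x : Seq => x i :=
      (lp.evalCLM ℂ (fun _ : ℕ => ℂ) 2 i).continuous
    exact (hc.tendsto c).comp h2
  have h4 : Tendsto (fun n => trunc d n i) atTop (𝓝 (d i)) := by
    refine tendsto_const_nhds.congr' ?_
    filter_upwards [eventually_gt_atTop i] with n hn
    exact (trunc_apply d hn).symm
  exact tendsto_nhds_unique h4 h3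

end Riesz

end Pool.Agent.Restart
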