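import Pool.Agent.Restart.System

/-!
Riesz bounds for the root system.
-/

set_option linter.unusedSectionVars false

namespace Pool.Agent.Restart

open Finset MeasureTheory Real

variable (p r : ℕ) [NeZero p] [NeZero r]

omit [NeZero r] in
lemma corr_bounded : ∃ C : ℝ, ∀ m, |corr p r m| ≤ C := by
  have hq : ((p : ℝ) + r) ≠ 0 := by
    have : (0 : ℝ) < p := Nat.cast_pos.2 (Nat.pos_of_ne_zero (NeZero.ne p))
    positivity
  have hper : Function.Periodic (corr p r) (2 * (p + r)) := by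
    intro m
    have e : ((m + 2 * (p + r) : ℕ) : ℝ) * par p r * π =
        m * par p r * π + ((p - r : ℤ) : ℝ) * (2 * π) := by
      unfold par
      push_cast
      field_simp
    unfold corr
    rw [e, Real.sin_add_int_mul_two_pi, Real.cos_add_int_mul_two_pi, pow_add, pow_mul]
    norm_num
  refine ⟨∑ k ∈ range (2 * (p + r)), |corr p r k|, fun m => ?_⟩
  rw [← hper.map_mod_nat m]
  have hpos : 0 < 2 * (p + r) := by have := Nat.pos_of_ne_zero (NeZero.ne p); omega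
  exact single_le_sum (f := fun k => |corr p r k|) (fun k _ => abs_nonneg _)
    (mem_range.2 (Nat.mod_lt m hpos))

/-- The squared norm over the interval. -/
noncomputable def N (g : ℝ → ℂ) : ℝ := ∫ x in (-(π / 2))..(π / 2), ‖g x‖ ^ 2

lemma N_nonneg (g : ℝ → ℂ) : 0 ≤ N g := by
  have hpi := Real.pi_pos
  exact intervalIntegral.integral_nonneg (by linarith) fun x _ => by positivity

lemma N_add_le {g h : ℝ → ℂ} (cg : Continuous g) (ch : Continuous h) :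
    N (fun x => g x + h x) ≤ 2 * N g + 2 * N h := by
  have hpi := Real.pi_pos
  unfold N
  rw [← intervalIntegral.integral_const_mul, ← intervalIntegral.integral_const_mul,
    ← intervalIntegral.integral_add
      ((by fun_prop : Continuous fun x => 2 * ‖g x‖ ^ 2).intervalIntegrable _ _)
      ((by fun_prop : Continuous fun x => 2 * ‖h x‖ ^ 2).intervalIntegrable _ _)]
  refine intervalIntegral.integral_mono_on (by linarith)
    ((by fun_prop : Continuous fun x => ‖g x + h x‖ ^ 2).intervalIntegrable _ _)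
    ((by fun_prop : Continuous fun x => 2 * ‖g x‖ ^ 2 + 2 * ‖h x‖ ^ 2).intervalIntegrable _ _)
    fun x _ => ?_
  have := pow_le_pow_left₀ (norm_nonneg _) (norm_add_le (g x) (h x)) 2
  nlinarith [sq_nonneg (‖g x‖ - ‖h x‖)]

section Parts

variable {p r}
variable (s₁ : Finset ℕ) (s₂ : Finset {n : ℕ // ¬ r ∣ n}) (s₃ s₄ : Finset ℕ)
  (c₁ : ℕ → ℂ) (c₂ : {n : ℕ // ¬ r ∣ n} → ℂ) (c₃ c₄ : ℕ → ℂ)

/-- The first periodic part. -/
noncomputable def G₁ (p r : ℕ) (s₁ : Finset ℕ) (c₁ : ℕ → ℂ) (x : ℝ) : ℂ :=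
  ∑ n ∈ s₁, c₁ n * (Real.cos (n * (2 * (p + r) / p) * x) : ℝ)

/-- The second periodic part. -/
noncomputable def G₂ (p r : ℕ) (s₂ : Finset {n : ℕ // ¬ r ∣ n}) (c₂ : {n : ℕ // ¬ r ∣ n} → ℂ)
    (x : ℝ) : ℂ :=
  ∑ n ∈ s₂, c₂ n * (Real.cos ((n : ℕ) * (2 * (p + r) / r) * x) : ℝ)

/-- The third periodic part. -/
noncomputable def G₃ (p r : ℕ) (s₃ : Finset ℕ) (c₃ : ℕ → ℂ) (x : ℝ) : ℂ :=
  ∑ n ∈ s₃, c₃ n * (Real.sin ((n + 1 : ℕ) * (2 * (p + r)) * x) : ℝ)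

/-- The odd part. -/
noncomputable def Odd (s₄ : Finset ℕ) (c₄ : ℕ → ℂ) (x : ℝ) : ℂ :=
  ∑ n ∈ s₄, c₄ n * (Real.sin ((n + 1 : ℕ) * 2 * x) : ℝ)

/-- The even correction. -/
noncomputable def Ev (p r : ℕ) (s₄ : Finset ℕ) (c₄ : ℕ → ℂ) (x : ℝ) : ℂ :=
  ∑ n ∈ s₄, (c₄ n * (corr p r (n + 1) : ℂ)) * (Real.cos ((n + 1 : ℕ) * 2 * x) : ℝ)

lemma G₁_continuous : Continuous (G₁ p r s₁ c₁) := by unfold G₁; fun_prop
lemma G₂_continuous : Continuous (G₂ p r s₂ c₂) := by unfold G₂; fun_prop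
lemma G₃_continuous : Continuous (G₃ p r s₃ c₃) := by unfold G₃; fun_prop
lemma Odd_continuous : Continuous (Odd s₄ c₄) := by unfold Odd; fun_prop
lemma Ev_continuous : Continuous (Ev p r s₄ c₄) := by unfold Ev; fun_prop

lemma hpos : (0 : ℝ) < p ∧ (0 : ℝ) < r :=
  ⟨Nat.cast_pos.2 (Nat.pos_of_ne_zero (NeZero.ne p)),
    Nat.cast_pos.2 (Nat.pos_of_ne_zero (NeZero.ne r))⟩

lemma G₁_periodic : Function.Periodic (G₁ p r s₁ c₁) (p * (π / (p + r))) := by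
  obtain ⟨hp, hr⟩ := hpos (p := p) (r := r)
  intro x
  unfold G₁
  refine sum_congr rfl fun n _ => ?_
  have : (n : ℝ) * (2 * (p + r) / p) * (x + p * (π / (p + r))) =
      n * (2 * (p + r) / p) * x + n * (2 * π) := by field_simp
  rw [this, Real.cos_add_nat_mul_two_pi]

lemma G₂_periodic : Function.Periodic (G₂ p r s₂ c₂) (r * (π / (p + r))) := by
  obtain ⟨hp, hr⟩ := hpos (p := p) (r := r)
  intro x
  unfold G₂
  refine sum_congr rfl fun n _ => ?_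
  have : ((n : ℕ) : ℝ) * (2 * (p + r) / r) * (x + r * (π / (p + r))) =
      (n : ℕ) * (2 * (p + r) / r) * x + (n : ℕ) * (2 * π) := by field_simp
  rw [this, Real.cos_add_nat_mul_two_pi]

lemma G₃_periodic : Function.Periodic (G₃ p r s₃ c₃) (π / (p + r)) := by
  obtain ⟨hp, hr⟩ := hpos (p := p) (r := r)
  intro x
  unfold G₃
  refine sum_congr rfl fun n _ => ?_
  have : ((n + 1 : ℕ) : ℝ) * (2 * (p + r)) * (x + π / (p + r)) =
      (n + 1 : ℕ) * (2 * (p + r)) * x + (n + 1 : ℕ) * (2 * π) := by field_simp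
  rw [this, Real.sin_add_nat_mul_two_pi]

lemma G₂_sum (x : ℝ) : ∑ l ∈ range r, G₂ p r s₂ c₂ (x + l * (π / (p + r))) = 0 := by
  obtain ⟨hp, hr⟩ := hpos (p := p) (r := r)
  unfold G₂
  rw [sum_comm]
  refine sum_eq_zero fun n _ => ?_
  rw [← mul_sum, ← Complex.ofReal_sum]
  have h := sum_cos_shift (Nat.pos_of_ne_zero (NeZero.ne r)) n.2 ((n : ℕ) * (2 * (p + r) / r) * x)
  have h2 : ∑ l ∈ range r, Real.cos ((n : ℕ) * (2 * (p + r) / r) * (x + l * (π / (p + r)))) = 0 := by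
    rw [← h]
    refine sum_congr rfl fun l _ => ?_
    congr 1
    field_simp
  rw [h2, Complex.ofReal_zero, mul_zero]

lemma N_Odd : N (Odd s₄ c₄) = (π / 2) * ∑ n ∈ s₄, ‖c₄ n‖ ^ 2 := by
  unfold N Odd
  have h := integral_norm_sq s₄ (fun n x => Real.sin ((n + 1 : ℕ) * 2 * x)) (by fun_prop)
    (a := -(π / 2)) (b := π / 2) (fun _ => π / 2) (fun i j => by
      have := integral_sin_sin (ω := 2) (P := π) rfl (-(π / 2)) i j
      rw [show -(π / 2) + π = π / 2 by ring] at this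
      exact this) c₄
  rw [h, mul_sum]

lemma N_Ev : N (Ev p r s₄ c₄) = (π / 2) * ∑ n ∈ s₄, ‖c₄ n * (corr p r (n + 1) : ℂ)‖ ^ 2 := by
  unfold N Ev
  have h := integral_norm_sq s₄ (fun n x => Real.cos ((n + 1 : ℕ) * 2 * x)) (by fun_prop)
    (a := -(π / 2)) (b := π / 2) (fun _ => π / 2) (fun i j => by
      have := integral_cos_cos (ω := 2) (P := π) rfl (-(π / 2)) (i + 1) (j + 1)
      rw [show -(π / 2) + π = π / 2 by ring] at this
      simpa using this) (fun n => c₄ n * (corr p r (n + 1) : ℂ))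
  rw [h, mul_sum]

lemma int_G₁ : ∫ x in (-(π / 2))..(-(π / 2) + p * (π / (p + r))), ‖G₁ p r s₁ c₁ x‖ ^ 2 =
    ∑ n ∈ s₁, (if n = 0 then p * (π / (p + r)) else p * (π / (p + r)) / 2) * ‖c₁ n‖ ^ 2 := by
  obtain ⟨hp, hr⟩ := hpos (p := p) (r := r)
  unfold G₁
  exact integral_norm_sq s₁ (fun n x => Real.cos (n * (2 * (p + r) / p) * x)) (by fun_prop)
    (fun n => if n = 0 then p * (π / (p + r)) else p * (π / (p + r)) / 2) (fun i j => by
      have := integral_cos_cos (ω := 2 * (p + r) / p) (P := p * (π / (p + r))) (by field_simp)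
        (-(π / 2)) i j
      rw [this]
      split_ifs <;> simp_all) c₁

lemma int_G₂ : ∫ x in (-(π / 2))..(-(π / 2) + r * (π / (p + r))), ‖G₂ p r s₂ c₂ x‖ ^ 2 =
    ∑ n ∈ s₂, (r * (π / (p + r)) / 2) * ‖c₂ n‖ ^ 2 := by
  obtain ⟨hp, hr⟩ := hpos (p := p) (r := r)
  unfold G₂
  exact integral_norm_sq s₂ (fun (n : {n : ℕ // ¬ r ∣ n}) x =>
      Real.cos ((n : ℕ) * (2 * (p + r) / r) * x)) (by fun_prop)
    (fun n => r * (π / (p + r)) / 2) (fun i j => by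
      have := integral_cos_cos (ω := 2 * (p + r) / r) (P := r * (π / (p + r))) (by field_simp)
        (-(π / 2)) i j
      rw [this]
      have hj : (j : ℕ) ≠ 0 := fun h => j.2 (h ▸ dvd_zero r)
      by_cases h : i = j
      · subst h; simp [hj]
      · have : (i : ℕ) ≠ j := fun h' => h (Subtype.ext h')
        simp [h, this]) c₂

lemma int_G₃ : ∫ x in (-(π / 2))..(-(π / 2) + π / (p + r)), ‖G₃ p r s₃ c₃ x‖ ^ 2 =
    ∑ n ∈ s₃, (π / (p + r) / 2) * ‖c₃ n‖ ^ 2 := by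
  obtain ⟨hp, hr⟩ := hpos (p := p) (r := r)
  unfold G₃
  exact integral_norm_sq s₃ (fun n x => Real.sin ((n + 1 : ℕ) * (2 * (p + r)) * x)) (by fun_prop)
    (fun n => π / (p + r) / 2) (fun i j => by
      have := integral_sin_sin (ω := 2 * (p + r)) (P := π / (p + r)) (by field_simp)
        (-(π / 2)) i j
      exact this) c₃

end Parts

/-- The whole function. -/
noncomputable def total (p r : ℕ) (s₁ : Finset ℕ) (s₂ : Finset {n : ℕ // ¬ r ∣ n})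
    (s₃ s₄ : Finset ℕ) (c₁ : ℕ → ℂ) (c₂ : {n : ℕ // ¬ r ∣ n} → ℂ) (c₃ c₄ : ℕ → ℂ) (x : ℝ) : ℂ :=
  Odd s₄ c₄ x + ((G₁ p r s₁ c₁ x + G₂ p r s₂ c₂ x + (x : ℂ) * G₃ p r s₃ c₃ x) +
    Ev p r s₄ c₄ x)

theorem bounds_fun (hpr : Nat.Coprime p r) : ∃ m M : ℝ, 0 < m ∧
    ∀ (s₁ : Finset ℕ) (s₂ : Finset {n : ℕ // ¬ r ∣ n})
    (s₃ s₄ : Finset ℕ) (c₁ : ℕ → ℂ) (c₂ : {n : ℕ // ¬ r ∣ n} → ℂ) (c₃ c₄ : ℕ → ℂ),
    m * (∑ n ∈ s₁, ‖c₁ n‖ ^ 2 + ∑ n ∈ s₂, ‖c₂ n‖ ^ 2 + ∑ n ∈ s₃, ‖c₃ n‖ ^ 2 +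
      ∑ n ∈ s₄, ‖c₄ n‖ ^ 2) ≤ N (total p r s₁ s₂ s₃ s₄ c₁ c₂ c₃ c₄) ∧
    N (total p r s₁ s₂ s₃ s₄ c₁ c₂ c₃ c₄) ≤
    M * (∑ n ∈ s₁, ‖c₁ n‖ ^ 2 + ∑ n ∈ s₂, ‖c₂ n‖ ^ 2 + ∑ n ∈ s₃, ‖c₃ n‖ ^ 2 +
      ∑ n ∈ s₄, ‖c₄ n‖ ^ 2) := by
  have hpi := Real.pi_pos
  obtain ⟨hp, hr⟩ := hpos (p := p) (r := r)
  have hp1 : (1 : ℝ) ≤ p := by exact_mod_cast Nat.pos_of_ne_zero (NeZero.ne p)
  have hr1 : (1 : ℝ) ≤ r := by exact_mod_cast Nat.pos_of_ne_zero (NeZero.ne r)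
  set δ : ℝ := π / (p + r) with hδ
  have hδ0 : 0 < δ := by positivity
  have hδsum : (p + r) * δ = π := by rw [hδ]; field_simp
  have hpδ : p * δ ≤ π := by nlinarith
  have hrδ : r * δ ≤ π := by nlinarith
  have hδp : δ ≤ p * δ := by nlinarith
  have hδr : δ ≤ r * δ := by nlinarith
  obtain ⟨m₀, M₀, hm₀, hb⟩ := exists_bounds hpr hδ0 (-(π / 2))
  obtain ⟨C, hC⟩ := corr_bounded p r
  have hend : -(π / 2) + ((p + r : ℕ) : ℝ) * δ = π / 2 := by
    push_cast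
    rw [hδsum]
    ring
  refine ⟨1 / ((2 + 2 * C ^ 2) / (m₀ * (δ / 2)) + 2 / π),
    π / 2 + 2 * (|M₀| * π) + 2 * (C ^ 2 * (π / 2)), by positivity, ?_⟩
  intro s₁ s₂ s₃ s₄ c₁ c₂ c₃ c₄
  set K₁ := ∑ n ∈ s₁, ‖c₁ n‖ ^ 2 with hK₁
  set K₂ := ∑ n ∈ s₂, ‖c₂ n‖ ^ 2 with hK₂
  set K₃ := ∑ n ∈ s₃, ‖c₃ n‖ ^ 2 with hK₃
  set K₄ := ∑ n ∈ s₄, ‖c₄ n‖ ^ 2 with hK₄
  have k₁ : 0 ≤ K₁ := sum_nonneg fun _ _ => by positivity
  have k₂ : 0 ≤ K₂ := sum_nonneg fun _ _ => by positivity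
  have k₃ : 0 ≤ K₃ := sum_nonneg fun _ _ => by positivity
  have k₄ : 0 ≤ K₄ := sum_nonneg fun _ _ => by positivity
  set E : ℝ → ℂ := fun x => G₁ p r s₁ c₁ x + G₂ p r s₂ c₂ x + (x : ℂ) * G₃ p r s₃ c₃ x with hE
  have c1 := G₁_continuous (p := p) (r := r) s₁ c₁
  have c2 := G₂_continuous (p := p) (r := r) s₂ c₂
  have c3 := G₃_continuous (p := p) (r := r) s₃ c₃
  have c4 := Odd_continuous s₄ c₄
  have c5 := Ev_continuous (p := p) (r := r) s₄ c₄
  have cE : Continuous E := by unfold E; fun_prop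
  obtain ⟨b1, b2⟩ := hb (G₁ p r s₁ c₁) (G₂ p r s₂ c₂) (G₃ p r s₃ c₃) c1 c2 c3
    (G₁_periodic s₁ c₁) (G₂_periodic s₂ c₂) (G₃_periodic s₃ c₃) (G₂_sum s₂ c₂)
  rw [hend, int_G₁, int_G₂, int_G₃] at b1 b2
  change _ ≤ N E at b1
  change N E ≤ _ at b2
  rw [← hδ] at b1 b2
  have l1 : δ / 2 * K₁ ≤
      ∑ n ∈ s₁, (if n = 0 then p * δ else p * δ / 2) * ‖c₁ n‖ ^ 2 := by
    rw [hK₁, mul_sum]
    refine sum_le_sum fun n _ => mul_le_mul_of_nonneg_right ?_ (by positivity)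
    split_ifs <;> linarith
  have u1 : ∑ n ∈ s₁, (if n = 0 then p * δ else p * δ / 2) * ‖c₁ n‖ ^ 2 ≤ π * K₁ := by
    rw [hK₁, mul_sum]
    refine sum_le_sum fun n _ => mul_le_mul_of_nonneg_right ?_ (by positivity)
    split_ifs <;> linarith
  have l2 : δ / 2 * K₂ ≤ ∑ n ∈ s₂, (r * δ / 2) * ‖c₂ n‖ ^ 2 := by
    rw [hK₂, mul_sum]
    exact sum_le_sum fun n _ => mul_le_mul_of_nonneg_right (by linarith) (by positivity)
  have u2 : ∑ n ∈ s₂, (r * δ / 2) * ‖c₂ n‖ ^ 2 ≤ π * K₂ := by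
    rw [hK₂, mul_sum]
    exact sum_le_sum fun n _ => mul_le_mul_of_nonneg_right (by linarith) (by positivity)
  have l3 : δ / 2 * K₃ ≤ ∑ n ∈ s₃, (δ / 2) * ‖c₃ n‖ ^ 2 := by
    rw [hK₃, mul_sum]
  have u3 : ∑ n ∈ s₃, (δ / 2) * ‖c₃ n‖ ^ 2 ≤ π * K₃ := by
    rw [hK₃, mul_sum]
    exact sum_le_sum fun n _ => mul_le_mul_of_nonneg_right (by linarith) (by positivity)
  have hElow : m₀ * (δ / 2) * (K₁ + K₂ + K₃) ≤ N E := by
    refine le_trans ?_ b1
    rw [mul_assoc]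
    refine mul_le_mul_of_nonneg_left ?_ hm₀.le
    linarith
  have hEupp : N E ≤ |M₀| * π * (K₁ + K₂ + K₃) := by
    refine b2.trans ?_
    have hs : 0 ≤ (∑ n ∈ s₁, (if n = 0 then p * δ else p * δ / 2) * ‖c₁ n‖ ^ 2) +
      (∑ n ∈ s₂, (r * δ / 2) * ‖c₂ n‖ ^ 2) + ∑ n ∈ s₃, (δ / 2) * ‖c₃ n‖ ^ 2 := by
      have := mul_nonneg hδ0.le k₁
      have := mul_nonneg hδ0.le k₂
      have := mul_nonneg hδ0.le k₃
      linarith
    refine (mul_le_mul_of_nonneg_right (le_abs_self M₀) hs).trans ?_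
    rw [mul_assoc]
    refine mul_le_mul_of_nonneg_left ?_ (abs_nonneg M₀)
    linarith
  have hO := N_Odd s₄ c₄
  have hV : N (Ev p r s₄ c₄) ≤ C ^ 2 * ((π / 2) * K₄) := by
    rw [N_Ev, hK₄, mul_left_comm]
    refine mul_le_mul_of_nonneg_left ?_ (by positivity)
    rw [mul_sum]
    refine sum_le_sum fun n _ => ?_
    rw [norm_mul, mul_pow, Complex.norm_real, mul_comm]
    refine mul_le_mul_of_nonneg_right ?_ (by positivity)
    rw [Real.norm_eq_abs]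
    exact pow_le_pow_left₀ (abs_nonneg _) (hC _) 2
  have hpar : N (total p r s₁ s₂ s₃ s₄ c₁ c₂ c₃ c₄) =
      N (Odd s₄ c₄) + N (fun x => E x + Ev p r s₄ c₄ x) := by
    refine integral_parity (Odd s₄ c₄) (fun x => E x + Ev p r s₄ c₄ x) c4 (by fun_prop) ?_ ?_
    · intro x
      unfold Odd
      rw [← sum_neg_distrib]
      refine sum_congr rfl fun n _ => ?_
      rw [mul_neg, Real.sin_neg, Complex.ofReal_neg, mul_neg]
    · intro x
      simp only [hE]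
      congr 1
      · congr 1
        · congr 1
          · unfold G₁
            refine sum_congr rfl fun n _ => ?_
            rw [mul_neg, Real.cos_neg]
          · unfold G₂
            refine sum_congr rfl fun n _ => ?_
            rw [mul_neg, Real.cos_neg]
        · unfold G₃
          rw [mul_sum, mul_sum]
          refine sum_congr rfl fun n _ => ?_
          rw [mul_neg, Real.sin_neg, Complex.ofReal_neg, Complex.ofReal_neg]
          ring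
      · unfold Ev
        refine sum_congr rfl fun n _ => ?_
        rw [mul_neg, Real.cos_neg]
  have hadd := N_add_le cE c5
  have hsub : N E ≤ 2 * N (fun x => E x + Ev p r s₄ c₄ x) + 2 * N (Ev p r s₄ c₄) := by
    have := N_add_le (g := fun x => E x + Ev p r s₄ c₄ x) (h := fun x => - Ev p r s₄ c₄ x)
      (by fun_prop) (by fun_prop)
    have e1 : N (fun x => E x + Ev p r s₄ c₄ x + - Ev p r s₄ c₄ x) = N E := by
      unfold N
      refine intervalIntegral.integral_congr fun x _ => ?_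
      simp only [add_neg_cancel_right]
    have e2 : N (fun x => - Ev p r s₄ c₄ x) = N (Ev p r s₄ c₄) := by
      unfold N
      refine intervalIntegral.integral_congr fun x _ => ?_
      simp only [norm_neg]
    rw [e1, e2] at this
    exact this
  have nO := N_nonneg (Odd s₄ c₄)
  have nEV := N_nonneg (fun x => E x + Ev p r s₄ c₄ x)
  have nE := N_nonneg E
  rw [hpar]
  constructor
  · set T := N (Odd s₄ c₄) + N (fun x => E x + Ev p r s₄ c₄ x) with hT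
    have hK₄' : K₄ = 2 / π * N (Odd s₄ c₄) := by rw [hO, ← hK₄]; field_simp
    have h1 : N E ≤ (2 + 2 * C ^ 2) * T := by
      have : C ^ 2 * ((π / 2) * K₄) = C ^ 2 * N (Odd s₄ c₄) := by rw [hO]
      nlinarith [sq_nonneg C, mul_nonneg (sq_nonneg C) nEV]
    have h2 : K₁ + K₂ + K₃ ≤ (2 + 2 * C ^ 2) / (m₀ * (δ / 2)) * T := by
      rw [div_mul_eq_mul_div, le_div_iff₀ (by positivity), mul_comm]
      exact hElow.trans h1
    have h3 : K₄ ≤ 2 / π * T := by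
      rw [hK₄']
      refine mul_le_mul_of_nonneg_left ?_ (by positivity)
      linarith
    rw [one_div, inv_mul_le_iff₀ (by positivity)]
    linarith
  · rw [← hK₄] at hO
    clear_value K₁ K₂ K₃ K₄
    set A := |M₀| * π with hA
    set B := C ^ 2 * (π / 2) with hB
    have hA0 : 0 ≤ A := by positivity
    have hB0 : 0 ≤ B := by positivity
    have e : (π / 2 + 2 * A + 2 * B) * (K₁ + K₂ + K₃ + K₄) =
        π / 2 * (K₁ + K₂ + K₃) + π / 2 * K₄ + 2 * (A * (K₁ + K₂ + K₃)) + 2 * (A * K₄) +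
          2 * (B * (K₁ + K₂ + K₃)) + 2 * (B * K₄) := by ring
    have hV' : N (Ev p r s₄ c₄) ≤ B * K₄ := by rw [hB, mul_assoc]; exact hV
    have hK : 0 ≤ K₁ + K₂ + K₃ := by linarith
    have h1 := mul_nonneg hA0 k₄
    have h2 := mul_nonneg hB0 hK
    have h3 := mul_nonneg (by positivity : (0 : ℝ) ≤ π / 2) hK
    rw [e]
    linarith

lemma sum_idx {β : Type*} [AddCommMonoid β] (s : Finset (Idx r)) (F : Idx r → β) :
    ∑ i ∈ s, F i = ∑ n ∈ s.toLeft, F (.inl n) + (∑ n ∈ s.toRight.toLeft, F (.inr (.inl n)) +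
      (∑ n ∈ s.toRight.toRight.toLeft, F (.inr (.inr (.inl n))) +
        ∑ n ∈ s.toRight.toRight.toRight, F (.inr (.inr (.inr n))))) := by
  conv_lhs => rw [← s.toLeft_disjSum_toRight, sum_disjSum]
  congr 1
  conv_lhs => rw [← s.toRight.toLeft_disjSum_toRight, sum_disjSum]
  congr 1
  conv_lhs => rw [← s.toRight.toRight.toLeft_disjSum_toRight, sum_disjSum]

theorem bounds_vec (hpr : Nat.Coprime p r) : ∃ m M : ℝ, 0 < m ∧
    ∀ (s : Finset (Idx r)) (c : Idx r → ℂ),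
      m * ∑ i ∈ s, ‖c i‖ ^ 2 ≤ ‖∑ i ∈ s, c i • vec p r i‖ ^ 2 ∧
      ‖∑ i ∈ s, c i • vec p r i‖ ^ 2 ≤ M * ∑ i ∈ s, ‖c i‖ ^ 2 := by
  obtain ⟨m, M, hm, h⟩ := bounds_fun p r hpr
  refine ⟨m, M, hm, fun s c => ?_⟩
  have e : ‖∑ i ∈ s, c i • vec p r i‖ ^ 2 =
      N (total p r s.toLeft s.toRight.toLeft s.toRight.toRight.toLeft
        s.toRight.toRight.toRight (fun n => c (.inl n)) (fun n => c (.inr (.inl n)))
        (fun n => c (.inr (.inr (.inl n)))) (fun n => c (.inr (.inr (.inr n))))) := by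
    unfold vec
    rw [toSp_sum s c (fn p r) (fn_continuous p r), norm_sq_toSp]
    unfold N
    refine intervalIntegral.integral_congr fun x _ => ?_
    change ‖∑ i ∈ s, c i * fn p r i x‖ ^ 2 = ‖total p r _ _ _ _ _ _ _ _ x‖ ^ 2
    congr 2
    rw [sum_idx]
    unfold total Odd G₁ G₂ G₃ Ev
    simp only [fn]
    rw [mul_sum]
    have e1 : ∀ n : ℕ, c (.inr (.inr (.inl n))) *
        ((x * Real.sin ((n + 1 : ℕ) * (2 * (p + r)) * x) : ℝ) : ℂ) =
        (x : ℂ) * (c (.inr (.inr (.inl n))) *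
          ((Real.sin ((n + 1 : ℕ) * (2 * (p + r)) * x) : ℝ) : ℂ)) := by
      intro n
      rw [Complex.ofReal_mul]
      ring
    have e2 : ∀ n : ℕ, c (.inr (.inr (.inr n))) *
        ((Real.sin ((n + 1 : ℕ) * 2 * x) +
          corr p r (n + 1) * Real.cos ((n + 1 : ℕ) * 2 * x) : ℝ) : ℂ) =
        c (.inr (.inr (.inr n))) * ((Real.sin ((n + 1 : ℕ) * 2 * x) : ℝ) : ℂ) +
        (c (.inr (.inr (.inr n))) * (corr p r (n + 1) : ℂ)) *
          ((Real.cos ((n + 1 : ℕ) * 2 * x) : ℝ) : ℂ) := by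
      intro n
      rw [Complex.ofReal_add, Complex.ofReal_mul]
      ring
    simp only [e1, e2, sum_add_distrib]
    ring
  rw [e, sum_idx]
  have := h s.toLeft s.toRight.toLeft s.toRight.toRight.toLeft
        s.toRight.toRight.toRight (fun n => c (.inl n)) (fun n => c (.inr (.inl n)))
        (fun n => c (.inr (.inr (.inl n)))) (fun n => c (.inr (.inr (.inr n))))
  simpa only [add_assoc] using this

end Pool.Agent.Restart
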