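import Pool.Agent.Restart.Fold
import Pool.Agent.Restart.Bounds

/-!
Completeness of the root system.
-/

set_option linter.unusedSectionVars false

namespace Pool.Agent.Restart

open Finset MeasureTheory Real

/-- The even part. -/
noncomputable def evenPart (F : ℝ → ℂ) (x : ℝ) : ℂ := 1 / 2 * (F x + F (-x))

lemma neg_mem_I {x : ℝ} : -x ∈ I ↔ x ∈ I := by
  simp only [Set.mem_Ioo]
  constructor <;> rintro ⟨h1, h2⟩ <;> constructor <;> linarith

section

variable {F : ℝ → ℂ}

lemma evenPart_memLp (hF : MemLp F 2) : MemLp (evenPart F) 2 := by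
  have h1 : MemLp (fun x => F (-x)) 2 :=
    hF.comp_measurePreserving (Measure.measurePreserving_neg volume)
  exact (hF.add h1).const_mul (1 / 2 : ℂ)

lemma evenPart_integrable (hF : Integrable F) : Integrable (evenPart F) :=
  (hF.add hF.comp_neg).const_mul (1 / 2 : ℂ)

lemma evenPart_support (hs : ∀ x, x ∉ I → F x = 0) : ∀ x, x ∉ I → evenPart F x = 0 := by
  intro x hx
  unfold evenPart
  rw [hs x hx, hs (-x) (fun h => hx (neg_mem_I.1 h)), add_zero, mul_zero]

lemma integral_evenPart (hF : Integrable F) (hs : ∀ x, x ∉ I → F x = 0) {φ : ℝ → ℂ}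
    (hφ : Continuous φ) :
    ∫ x, φ x * evenPart F x = 1 / 2 * ((∫ x, φ x * F x) + ∫ x, φ (-x) * F x) := by
  have h1 : ∫ x, φ (-x) * F x = ∫ x, φ x * F (-x) := by
    rw [← integral_neg_eq_self (fun x => φ (-x) * F x)]
    simp only [neg_neg]
  have i1 := integrable_mul hF hs hφ
  have i2 : Integrable fun x => φ x * F (-x) :=
    integrable_mul hF.comp_neg (fun x hx => hs (-x) fun h => hx (neg_mem_I.1 h)) hφ
  rw [h1, ← integral_add i1 i2, ← integral_const_mul]
  refine integral_congr_ae (Filter.Eventually.of_forall fun x => ?_)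
  simp only [evenPart]
  ring

lemma integral_evenPart_even (hF : Integrable F) (hs : ∀ x, x ∉ I → F x = 0) {φ : ℝ → ℂ}
    (hφ : Continuous φ) (he : ∀ x, φ (-x) = φ x) :
    ∫ x, φ x * evenPart F x = ∫ x, φ x * F x := by
  rw [integral_evenPart hF hs hφ]
  simp only [he]
  ring

lemma integral_evenPart_odd (hF : Integrable F) (hs : ∀ x, x ∉ I → F x = 0) {φ : ℝ → ℂ}
    (hφ : Continuous φ) (he : ∀ x, φ (-x) = - φ x) :
    ∫ x, φ x * evenPart F x = 0 := by
  rw [integral_evenPart hF hs hφ]
  simp only [he, neg_mul, integral_neg]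
  ring

lemma exp_int {G : ℝ → ℂ} (hG : Integrable G) (hs : ∀ x, x ∉ I → G x = 0) {ω : ℝ}
    (hc : ∀ m : ℕ, ∫ x, ((Real.cos (m * ω * x) : ℝ) : ℂ) * G x = 0)
    (hsn : ∀ m : ℕ, ∫ x, ((Real.sin (m * ω * x) : ℝ) : ℂ) * G x = 0) (n : ℤ) :
    ∫ x, Complex.exp (-(n * ω * x : ℝ) * Complex.I) * G x = 0 := by
  have i1 : Integrable fun x => ((Real.cos (n * ω * x) : ℝ) : ℂ) * G x :=
    integrable_mul hG hs (by fun_prop)
  have i2 : Integrable fun x => ((Real.sin (n * ω * x) : ℝ) : ℂ) * G x :=
    integrable_mul hG hs (by fun_prop)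
  have e : ∀ x : ℝ, Complex.exp (-(n * ω * x : ℝ) * Complex.I) * G x =
      ((Real.cos (n * ω * x) : ℝ) : ℂ) * G x -
        Complex.I * (((Real.sin (n * ω * x) : ℝ) : ℂ) * G x) := by
    intro x
    rw [← Complex.ofReal_neg, Complex.exp_mul_I, ← Complex.ofReal_cos, ← Complex.ofReal_sin,
      Real.cos_neg, Real.sin_neg]
    push_cast
    ring
  simp only [e]
  rw [integral_sub i1 (i2.const_mul _), integral_const_mul]
  obtain ⟨m, rfl | rfl⟩ := n.eq_nat_or_neg
  · have e1 : ∀ x, Real.cos (((m : ℕ) : ℤ) * ω * x) = Real.cos (m * ω * x) := by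
      intro x
      push_cast
      rfl
    have e2 : ∀ x, Real.sin (((m : ℕ) : ℤ) * ω * x) = Real.sin (m * ω * x) := by
      intro x
      push_cast
      rfl
    simp only [e1, e2, hc, hsn, mul_zero, sub_zero]
  · have e1 : ∀ x, Real.cos ((-((m : ℕ) : ℤ) : ℤ) * ω * x) = Real.cos (m * ω * x) := by
      intro x
      rw [← Real.cos_neg]
      congr 1
      push_cast
      ring
    have e2 : ∀ x, Real.sin ((-((m : ℕ) : ℤ) : ℤ) * ω * x) = -Real.sin (m * ω * x) := by
      intro x
      rw [← Real.sin_neg]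
      congr 1
      push_cast
      ring
    simp only [e1, e2, hc, Complex.ofReal_neg, neg_mul, integral_neg, hsn, neg_zero, mul_zero,
      sub_zero]

lemma ae_translate {Q : ℝ → Prop} {a b δ : ℝ}
    (h : ∀ᵐ z ∂(volume : Measure ℝ).restrict (Set.Ioc a b), Q z) {c : ℝ} (hc : 0 ≤ c)
    (hb : a + δ + c ≤ b) :
    ∀ᵐ y ∂(volume : Measure ℝ).restrict (Set.Ioc a (a + δ)), Q (y + c) := by
  rw [ae_restrict_iff' measurableSet_Ioc] at h ⊢
  have h2 := (measurePreserving_add_right volume c).quasiMeasurePreserving.ae h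
  filter_upwards [h2] with y hy hy2
  exact hy ⟨by linarith [hy2.1], by linarith [hy2.2]⟩

end

variable (p r : ℕ) [NeZero p] [NeZero r]

lemma sum_fold {n : ℕ} [NeZero n] (T : ℕ) (Φ : ℕ → ℂ) (hΦ : ∀ l, T ≤ l → Φ l = 0) (j : Fin n)
    (hn : 0 < n) :
    ∑ l ∈ (range T).filter (fun l => Fin.ofNat n l = j), Φ l =
      ∑ k ∈ range T, Φ (j + k * n) := by
  have e : ∑ k ∈ range T, Φ (j + k * n) =
      ∑ k ∈ (range T).filter (fun k => j + k * n < T), Φ (j + k * n) := by
    rw [sum_filter]
    refine sum_congr rfl fun k _ => ?_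
    split_ifs with h
    · rfl
    · exact hΦ _ (not_lt.1 h)
  rw [e]
  refine sum_nbij' (fun l => l / n) (fun k => j + k * n) ?_ ?_ ?_ ?_ ?_
  · intro l hl
    simp only [mem_filter, mem_range] at hl ⊢
    have h1 : l % n = j := by rw [← hl.2]; simp
    have h2 := Nat.mod_add_div l n
    rw [h1] at h2
    refine ⟨lt_of_le_of_lt (Nat.div_le_self l n) hl.1, ?_⟩
    rw [mul_comm (l / n) n, h2]
    exact hl.1
  · intro k hk
    simp only [mem_filter, mem_range] at hk ⊢
    refine ⟨hk.2, ?_⟩
    ext
    simp [Nat.mod_eq_of_lt j.2]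
  · intro l hl
    simp only [mem_filter, mem_range] at hl
    have h1 : l % n = j := by rw [← hl.2]; simp
    have h2 := Nat.mod_add_div l n
    rw [h1] at h2
    rw [mul_comm (l / n) n, h2]
  · intro k _
    rw [Nat.add_mul_div_right _ _ hn, Nat.div_eq_of_lt j.2, zero_add]
  · intro l hl
    simp only [mem_filter, mem_range] at hl
    have h1 : l % n = j := by rw [← hl.2]; simp
    have h2 := Nat.mod_add_div l n
    rw [h1] at h2
    rw [mul_comm (l / n) n, h2]


section

variable {F : ℝ → ℂ} (hF : MemLp F 2) (hFi : Integrable F) (hs : ∀ x, x ∉ I → F x = 0)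
  (h : ∀ i : Idx r, ∫ x, fn p r i x * F x = 0)

include hF hFi hs h

lemma fold_one : ∀ᵐ z ∂(volume : Measure ℝ).restrict
    (Set.Ioc (-(π / 2)) (-(π / 2) + p * (π / (p + r)))),
      ∑ k ∈ range (p + r), evenPart F (z + k * (p * (π / (p + r)))) = 0 := by
  obtain ⟨hp, hr⟩ := hpos (p := p) (r := r)
  have hp1 : (1 : ℝ) ≤ p := by exact_mod_cast Nat.one_le_iff_ne_zero.2 (NeZero.ne p)
  have hpi := Real.pi_pos
  refine fold_zero (evenPart_memLp hF) (evenPart_integrable hFi) (evenPart_support hs)
    (ω := 2 * (p + r) / p) (by positivity) (by field_simp) (p + r) ?_ ?_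
  · have : ((p + r : ℕ) : ℝ) * (p * (π / (p + r))) = p * π := by
      push_cast
      field_simp
    rw [this]
    nlinarith
  · refine exp_int (evenPart_integrable hFi) (evenPart_support hs) (fun m => ?_) (fun m => ?_)
    · rw [integral_evenPart_even hFi hs (φ := fun x => ((Real.cos (m * (2 * (p + r) / p) * x) : ℝ) : ℂ))
        (by fun_prop) (fun x => by rw [mul_neg, Real.cos_neg])]
      exact h (.inl m)
    · exact integral_evenPart_odd hFi hs
        (φ := fun x => ((Real.sin (m * (2 * (p + r) / p) * x) : ℝ) : ℂ))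
        (by fun_prop) (fun x => by rw [mul_neg, Real.sin_neg, Complex.ofReal_neg])

lemma fold_two : ∀ᵐ z ∂(volume : Measure ℝ).restrict
    (Set.Ioc (-(π / 2)) (-(π / 2) + r * (π / (p + r)))),
      ∑ k ∈ range (p + r), evenPart F (z + k * (r * (π / (p + r)))) = 0 := by
  obtain ⟨hp, hr⟩ := hpos (p := p) (r := r)
  have hr1 : (1 : ℝ) ≤ r := by exact_mod_cast Nat.one_le_iff_ne_zero.2 (NeZero.ne r)
  have hpi := Real.pi_pos
  refine fold_zero (evenPart_memLp hF) (evenPart_integrable hFi) (evenPart_support hs)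
    (ω := 2 * (p + r) / r) (by positivity) (by field_simp) (p + r) ?_ ?_
  · have : ((p + r : ℕ) : ℝ) * (r * (π / (p + r))) = r * π := by
      push_cast
      field_simp
    rw [this]
    nlinarith
  · refine exp_int (evenPart_integrable hFi) (evenPart_support hs) (fun m => ?_) (fun m => ?_)
    · rw [integral_evenPart_even hFi hs (φ := fun x => ((Real.cos (m * (2 * (p + r) / r) * x) : ℝ) : ℂ))
        (by fun_prop) (fun x => by rw [mul_neg, Real.cos_neg])]
      by_cases hm : r ∣ m
      · obtain ⟨k, rfl⟩ := hm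
        have := h (.inl (p * k))
        simp only [fn] at this
        rw [← this]
        refine integral_congr_ae (Filter.Eventually.of_forall fun x => ?_)
        have e : ((r * k : ℕ) : ℝ) * (2 * (p + r) / r) * x = (p * k : ℕ) * (2 * (p + r) / p) * x := by
          push_cast
          field_simp
        simp only [e]
      · exact h (.inr (.inl ⟨m, hm⟩))
    · exact integral_evenPart_odd hFi hs
        (φ := fun x => ((Real.sin (m * (2 * (p + r) / r) * x) : ℝ) : ℂ))
        (by fun_prop) (fun x => by rw [mul_neg, Real.sin_neg, Complex.ofReal_neg])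

lemma fold_three : ∀ᵐ z ∂(volume : Measure ℝ).restrict
    (Set.Ioc (-(π / 2)) (-(π / 2) + π / (p + r))),
      ∑ k ∈ range (p + r), ((z + k * (π / (p + r)) : ℝ) : ℂ) *
        evenPart F (z + k * (π / (p + r))) = 0 := by
  obtain ⟨hp, hr⟩ := hpos (p := p) (r := r)
  have hpi := Real.pi_pos
  have i1 : Integrable fun x : ℝ => (x : ℂ) * evenPart F x :=
    integrable_mul (evenPart_integrable hFi) (evenPart_support hs) (by fun_prop)
  have s1 : ∀ x : ℝ, x ∉ I → (x : ℂ) * evenPart F x = 0 := fun x hx => by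
    rw [evenPart_support hs x hx, mul_zero]
  have m1 : MemLp (fun x : ℝ => (x : ℂ) * evenPart F x) 2 := by
    have e : (fun x : ℝ => (x : ℂ) * evenPart F x) = fun x : ℝ => I.indicator (fun x : ℝ => (x : ℂ)) x *
        evenPart F x := by
      funext x
      by_cases hx : x ∈ I
      · rw [Set.indicator_of_mem hx]
      · rw [s1 x hx, evenPart_support hs x hx, mul_zero]
    rw [e]
    refine MemLp.of_le_mul (c := π / 2) (evenPart_memLp hF)
      ((Complex.continuous_ofReal.aestronglyMeasurable.indicator measurableSet_Ioo).mul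
        (evenPart_memLp hF).1) (Filter.Eventually.of_forall fun x => ?_)
    by_cases hx : x ∈ I
    · rw [Set.indicator_of_mem hx, norm_mul, Complex.norm_real, Real.norm_eq_abs]
      exact mul_le_mul_of_nonneg_right (abs_le.2 ⟨hx.1.le, hx.2.le⟩) (norm_nonneg _)
    · rw [Set.indicator_of_notMem hx, zero_mul, norm_zero]
      positivity
  refine fold_zero m1 i1 s1 (ω := 2 * (p + r)) (by positivity) (by field_simp) (p + r) ?_ ?_
  · have : ((p + r : ℕ) : ℝ) * (π / (p + r)) = π := by
      push_cast
      field_simp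
    rw [this]
  · refine exp_int i1 s1 (fun m => ?_) (fun m => ?_)
    · have := integral_evenPart_odd hFi hs
        (φ := fun x : ℝ => (x : ℂ) * ((Real.cos (m * (2 * (p + r)) * x) : ℝ) : ℂ))
        (by fun_prop) (fun x => by rw [mul_neg, Real.cos_neg]; push_cast; ring)
      rw [← this]
      refine integral_congr_ae (Filter.Eventually.of_forall fun x => ?_)
      simp only
      ring
    · have := integral_evenPart_even hFi hs
        (φ := fun x : ℝ => (x : ℂ) * ((Real.sin (m * (2 * (p + r)) * x) : ℝ) : ℂ))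
        (by fun_prop) (fun x => by rw [mul_neg, Real.sin_neg]; push_cast; ring)
      have e : ∫ x, ((Real.sin (m * (2 * (p + r)) * x) : ℝ) : ℂ) * ((x : ℂ) * evenPart F x) =
          ∫ x : ℝ, (x : ℂ) * ((Real.sin (m * (2 * (p + r)) * x) : ℝ) : ℂ) * evenPart F x := by
        refine integral_congr_ae (Filter.Eventually.of_forall fun x => ?_)
        simp only
        ring
      rw [e, this]
      rcases m with _ | n
      · simp
      · have := h (.inr (.inr (.inl n)))
        simp only [fn] at this
        rw [← this]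
        refine integral_congr_ae (Filter.Eventually.of_forall fun x => ?_)
        simp only
        push_cast
        ring

lemma evenPart_zero (hpr : Nat.Coprime p r) : ∀ᵐ x, evenPart F x = 0 := by
  obtain ⟨hp, hr⟩ := hpos (p := p) (r := r)
  have hpi := Real.pi_pos
  have f1 := fold_one p r hF hFi hs h
  have f2 := fold_two p r hF hFi hs h
  have f3 := fold_three p r hF hFi hs h
  set δ : ℝ := π / (p + r) with hδ
  have hδ0 : 0 < δ := by positivity
  have g1 : ∀ᵐ y ∂(volume : Measure ℝ).restrict (Set.Ioc (-(π / 2)) (-(π / 2) + δ)),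
      ∀ j : Fin p, ∑ k ∈ range (p + r), evenPart F (y + j * δ + k * (p * δ)) = 0 := by
    rw [ae_all_iff]
    intro j
    have hj : ((j : ℕ) : ℝ) + 1 ≤ p := by exact_mod_cast j.2
    exact ae_translate f1 (c := j * δ) (by positivity) (by nlinarith)
  have g2 : ∀ᵐ y ∂(volume : Measure ℝ).restrict (Set.Ioc (-(π / 2)) (-(π / 2) + δ)),
      ∀ j : Fin r, ∑ k ∈ range (p + r), evenPart F (y + j * δ + k * (r * δ)) = 0 := by
    rw [ae_all_iff]
    intro j
    have hj : ((j : ℕ) : ℝ) + 1 ≤ r := by exact_mod_cast j.2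
    exact ae_translate f2 (c := j * δ) (by positivity) (by nlinarith)
  have key : ∀ᵐ y ∂(volume : Measure ℝ).restrict (Set.Ioc (-(π / 2)) (-(π / 2) + δ)),
      ∀ l < p + r, evenPart F (y + l * δ) = 0 := by
    filter_upwards [g1, g2, f3, ae_restrict_mem measurableSet_Ioc] with y h1 h2 h3 hy
    have hz : ∀ l : ℕ, p + r ≤ l → evenPart F (y + l * δ) = 0 := by
      intro l hl
      refine evenPart_support hs _ fun hI => ?_
      have hl' : (p : ℝ) + r ≤ l := by exact_mod_cast hl
      have e : (p + r) * δ = π := by rw [hδ]; field_simp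
      have := hI.2
      have := hy.1
      nlinarith
    refine eq_zero_of_folds hpr hδ0.ne' y (fun l => evenPart F (y + l * δ)) ?_ ?_ h3
    · intro j
      rw [sum_fold (p + r) _ hz j (Nat.pos_of_ne_zero (NeZero.ne p)), ← h1 j]
      refine sum_congr rfl fun k _ => ?_
      congr 1
      push_cast
      ring
    · intro j
      rw [sum_fold (p + r) _ hz j (Nat.pos_of_ne_zero (NeZero.ne r)), ← h2 j]
      refine sum_congr rfl fun k _ => ?_
      congr 1
      push_cast
      ring
  have hsq : Integrable fun x => ‖evenPart F x‖ ^ 2 :=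
    (memLp_two_iff_integrable_sq_norm (evenPart_memLp hF).1).1 (evenPart_memLp hF)
  have hint : ∫ x, ‖evenPart F x‖ ^ 2 = 0 := by
    have e1 : ∫ x, ‖evenPart F x‖ ^ 2 =
        ∫ x in (-(π / 2))..(-(π / 2) + (p + r : ℕ) * δ), ‖evenPart F x‖ ^ 2 := by
      have e : ((p + r : ℕ) : ℝ) * δ = π := by push_cast; rw [hδ]; field_simp
      rw [e, intervalIntegral.integral_of_le (by linarith), ← integral_indicator measurableSet_Ioc]
      refine integral_congr_ae (Filter.Eventually.of_forall fun x => ?_)
      simp only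
      by_cases hx : x ∈ Set.Ioc (-(π / 2)) (-(π / 2) + π)
      · rw [Set.indicator_of_mem hx]
      · rw [Set.indicator_of_notMem hx, evenPart_support hs x, norm_zero]
        · norm_num
        · intro hxI
          exact hx ⟨hxI.1, by have := hxI.2; linarith⟩
    rw [e1, split_integral _ (fun a b => hsq.intervalIntegrable)]
    refine sum_eq_zero fun l hl => ?_
    rw [intervalIntegral.integral_of_le (by linarith)]
    rw [integral_eq_zero_iff_of_nonneg (fun x => by positivity)
      ((hsq.comp_add_right (l * δ)).integrableOn)]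
    filter_upwards [key] with y hy
    rw [hy l (mem_range.1 hl)]
    simp
  have := (integral_eq_zero_iff_of_nonneg (fun x => by positivity) hsq).1 hint
  filter_upwards [this] with x hx
  simpa using hx

theorem zero_of_orthogonal (hpr : Nat.Coprime p r) : ∀ᵐ x, F x = 0 := by
  have hpi := Real.pi_pos
  have he := evenPart_zero p r hF hFi hs h hpr
  have hcos : ∀ m : ℕ, ∫ x, ((Real.cos (m * 2 * x) : ℝ) : ℂ) * F x = 0 := by
    intro m
    rw [← integral_evenPart_even hFi hs (φ := fun x => ((Real.cos (m * 2 * x) : ℝ) : ℂ))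
        (by fun_prop) (fun x => by rw [mul_neg, Real.cos_neg])]
    rw [← integral_zero ℝ ℂ]
    refine integral_congr_ae ?_
    filter_upwards [he] with x hx
    rw [hx, mul_zero]
  have hsin : ∀ m : ℕ, ∫ x, ((Real.sin (m * 2 * x) : ℝ) : ℂ) * F x = 0 := by
    intro m
    rcases m with _ | n
    · simp
    · have h1 := h (.inr (.inr (.inr n)))
      have i1 : Integrable fun x => ((Real.sin ((n + 1 : ℕ) * 2 * x) : ℝ) : ℂ) * F x :=
        integrable_mul hFi hs (by fun_prop)
      have i2 : Integrable fun x => ((Real.cos ((n + 1 : ℕ) * 2 * x) : ℝ) : ℂ) * F x :=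
        integrable_mul hFi hs (by fun_prop)
      have e : ∀ x, fn p r (.inr (.inr (.inr n))) x * F x =
          ((Real.sin ((n + 1 : ℕ) * 2 * x) : ℝ) : ℂ) * F x +
            (corr p r (n + 1) : ℂ) * (((Real.cos ((n + 1 : ℕ) * 2 * x) : ℝ) : ℂ) * F x) := by
        intro x
        simp only [fn]
        push_cast
        ring
      simp only [e] at h1
      rw [integral_add i1 (i2.const_mul _), integral_const_mul, hcos (n + 1), mul_zero,
        add_zero] at h1
      exact h1
  have hf := fold_zero hF hFi hs (P := π) (ω := 2) hpi rfl 1 (by simp) (exp_int hFi hs hcos hsin)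
  rw [ae_restrict_iff' measurableSet_Ioc] at hf
  filter_upwards [hf] with x hx
  by_cases hxI : x ∈ I
  · have := hx ⟨hxI.1, by have := hxI.2; linarith⟩
    simpa using this
  · exact hs x hxI

end

lemma fn_conj (i : Idx r) (x : ℝ) : (starRingEnd ℂ) (fn p r i x) = fn p r i x := by
  rcases i with n | n | n | n <;> exact Complex.conj_ofReal _

theorem dense_span (hpr : Nat.Coprime p r) :
    Dense (Submodule.span ℂ (Set.range (vec p r)) : Set Space) := by
  rw [Submodule.dense_iff_topologicalClosure_eq_top, Submodule.topologicalClosure_eq_top_iff,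
    Submodule.eq_bot_iff]
  intro f hf
  rw [Submodule.mem_orthogonal] at hf
  set F : ℝ → ℂ := I.indicator f with hFdef
  have hF : MemLp F 2 := (memLp_indicator_iff_restrict measurableSet_Ioo).2 (Lp.memLp f)
  have hFi : Integrable F := by
    rw [integrable_indicator_iff measurableSet_Ioo]
    exact (Lp.memLp f).integrable (by norm_num)
  have hs : ∀ x, x ∉ I → F x = 0 := fun x hx => Set.indicator_of_notMem hx _
  have h : ∀ i : Idx r, ∫ x, fn p r i x * F x = 0 := by
    intro i
    have h1 := hf (vec p r i) (Submodule.subset_span ⟨i, rfl⟩)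
    rw [L2.inner_def] at h1
    rw [← h1, ← integral_indicator measurableSet_Ioo]
    refine integral_congr_ae ?_
    have h2 := toSp_ae (fn p r i) (fn_continuous p r i)
    rw [ae_restrict_iff' measurableSet_Ioo] at h2
    filter_upwards [h2] with x hx
    by_cases hxI : x ∈ I
    · rw [Set.indicator_of_mem hxI, hFdef, Set.indicator_of_mem hxI]
      change _ = inner ℂ (toSp (fn p r i) (fn_continuous p r i) x) (f x)
      rw [hx hxI, RCLike.inner_apply', fn_conj]
    · rw [Set.indicator_of_notMem hxI, hs x hxI, mul_zero]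
  have h0 := zero_of_orthogonal p r hF hFi hs h hpr
  refine Lp.ext ?_
  filter_upwards [Lp.coeFn_zero (E := ℂ) (p := 2) ((volume : Measure ℝ).restrict I),
    ae_restrict_of_ae (s := I) h0, ae_restrict_mem measurableSet_Ioo] with x h1 h2 h3
  rw [h1, ← Set.indicator_of_mem h3 (f := f)]
  exact h2

end Pool.Agent.Restart
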