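import Mathlib

/-!
The point-restart Laplacian on `(-π/2, π/2)`, its root vectors and Schauder bases.
-/

namespace Pool.Agent.Restart

open MeasureTheory Filter Topology

/-- The complex Hilbert space `L²((-π/2, π/2))`. -/
abbrev Space : Type :=
  Lp ℂ 2 ((volume : Measure ℝ).restrict (Set.Ioo (-(Real.pi / 2)) (Real.pi / 2)))

/-- `IsImage a f g` means that `f` lies in the domain of `H` and `H f = g`: the class `f` has a
representative `u` which is continuously differentiable on `[-π/2, π/2]` with derivative `v`, `v` is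
absolutely continuous with derivative `-g`, and `u (-π/2) = u (a π/2) = u (π/2)`. -/
def IsImage (a : ℝ) (f g : Space) : Prop :=
  ∃ u v : ℝ → ℂ,
    (∀ᵐ x ∂(volume : Measure ℝ).restrict (Set.Ioo (-(Real.pi / 2)) (Real.pi / 2)), f x = u x) ∧
    (∀ x ∈ Set.Icc (-(Real.pi / 2)) (Real.pi / 2),
      HasDerivWithinAt u (v x) (Set.Icc (-(Real.pi / 2)) (Real.pi / 2)) x) ∧
    (∀ x ∈ Set.Icc (-(Real.pi / 2)) (Real.pi / 2),
      v x = v (-(Real.pi / 2)) - ∫ t in (-(Real.pi / 2))..x, g t) ∧
    u (-(Real.pi / 2)) = u (a * (Real.pi / 2)) ∧ u (a * (Real.pi / 2)) = u (Real.pi / 2)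

/-- `IsRoot a μ k f` means that `f` lies in the kernel of `(H - μ) ^ k`. -/
def IsRoot (a : ℝ) (μ : ℂ) : ℕ → Space → Prop
  | 0, f => f = 0
  | k + 1, f => ∃ g, IsImage a f g ∧ IsRoot a μ k (g - μ • f)

/-- The sequence `ψ` is an enumeration of a root system of `H`: there are complex numbers `μ j`
such that, for every complex number `z`, the vectors `ψ j` with `μ j = z` form a basis of the root
subspace of `z` (which is zero if `z` is not an eigenvalue). -/
def IsRootSystem (a : ℝ) (ψ : ℕ → Space) : Prop :=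
  ∃ μ : ℕ → ℂ, ∀ z : ℂ, LinearIndependent ℂ (fun j : {j : ℕ // μ j = z} => ψ j) ∧
    (Submodule.span ℂ (ψ '' {j : ℕ | μ j = z}) : Set Space) = {f | ∃ k, IsRoot a z k f}

/-- The sequence `ψ` is a conditional basis (Schauder basis). -/
def IsSchauderBasis {E : Type*} [NormedAddCommGroup E] [NormedSpace ℂ E] (ψ : ℕ → E) : Prop :=
  ∀ f : E, ∃! c : ℕ → ℂ,
    Tendsto (fun n : ℕ => ∑ j ∈ Finset.range n, c j • ψ j) atTop (𝓝 f)

end Pool.Agent.Restart
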