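import Pool.Agent.Restart.System

/-!
Completeness of trigonometric systems through folding.
-/

namespace Pool.Agent.Restart

open Finset MeasureTheory Real

lemma integrable_mul {F : ℝ → ℂ} (hF : Integrable F) (hs : ∀ x, x ∉ I → F x = 0) {φ : ℝ → ℂ}
    (hφ : Continuous φ) : Integrable fun x => φ x * F x := by
  obtain ⟨C, hC⟩ := (isCompact_Icc (a := -(π / 2)) (b := π / 2)).exists_bound_of_continuousOn
    hφ.continuousOn
  have e : (fun x => φ x * F x) = fun x => (I.indicator φ x) * F x := by
    funext x
    by_cases hx : x ∈ I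
    · rw [Set.indicator_of_mem hx]
    · rw [hs x hx, mul_zero, mul_zero]
  rw [e]
  refine hF.bdd_mul (c := max C 0)
    (hφ.aestronglyMeasurable.indicator measurableSet_Ioo) (Filter.Eventually.of_forall fun x => ?_)
  by_cases hx : x ∈ I
  · rw [Set.indicator_of_mem hx]
    exact (hC x ⟨hx.1.le, hx.2.le⟩).trans (le_max_left _ _)
  · rw [Set.indicator_of_notMem hx, norm_zero]
    exact le_max_right _ _

lemma fold_zero {F : ℝ → ℂ} (hF : MemLp F 2) (hFi : Integrable F)
    (hs : ∀ x, x ∉ I → F x = 0) {P ω : ℝ} (hP : 0 < P) (hω : ω * P = 2 * π) (K : ℕ)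
    (hK : π ≤ K * P)
    (h : ∀ n : ℤ, ∫ x, Complex.exp (-(n * ω * x : ℝ) * Complex.I) * F x = 0) :
    ∀ᵐ z ∂(volume : Measure ℝ).restrict (Set.Ioc (-(π / 2)) (-(π / 2) + P)),
      ∑ k ∈ range K, F (z + k * P) = 0 := by
  have hpi := Real.pi_pos
  set α : ℝ := -(π / 2) with hα
  have hab : α < α + P := by linarith
  set Fo : ℝ → ℂ := fun z => ∑ k ∈ range K, F (z + k * P) with hFo
  have hmem : MemLp Fo 2 ((volume : Measure ℝ).restrict (Set.Ioc α (α + P))) := by
    refine MemLp.restrict _ ?_
    refine memLp_finsetSum _ fun k _ => ?_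
    exact hF.comp_measurePreserving (measurePreserving_add_right volume (k * P : ℝ))
  have hcoef : ∀ n : ℤ, fourierCoeffOn hab Fo n = 0 := by
    intro n
    rw [fourierCoeffOn_eq_integral]
    have hG : Integrable fun x => Complex.exp (-(n * ω * x : ℝ) * Complex.I) * F x :=
      integrable_mul hFi hs (by fun_prop)
    have e1 : ∀ x : ℝ, (fourier (-n) (x : AddCircle (α + P - α)) : ℂ) • Fo x =
        ∑ k ∈ range K, (fun t : ℝ => Complex.exp (-(n * ω * t : ℝ) * Complex.I) * F t)
          (x + k * P) := by
      intro x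
      rw [fourier_coe_apply, hFo, smul_eq_mul, mul_sum]
      refine sum_congr rfl fun k _ => ?_
      simp only
      congr 1
      have hPc : (P : ℂ) ≠ 0 := by exact_mod_cast hP.ne'
      have hωc : (ω : ℂ) * P = 2 * π := by exact_mod_cast hω
      have e2 : -((n * ω * (x + k * P) : ℝ) : ℂ) * Complex.I =
          2 * π * Complex.I * (-n : ℤ) * x / ((α + P - α : ℝ) : ℂ) +
            (-(n * k) : ℤ) * (2 * π * Complex.I) := by
        have : ((α + P - α : ℝ) : ℂ) = P := by
          rw [add_sub_cancel_left]
        rw [this]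
        field_simp
        push_cast
        linear_combination (-(n : ℂ) * x - n * k * P) * hωc
      rw [e2, Complex.exp_add, Complex.exp_int_mul_two_pi_mul_I, mul_one]
    have e3 : ∫ x in α..(α + P), (fourier (-n) (x : AddCircle (α + P - α)) : ℂ) • Fo x = 0 := by
      simp only [e1]
      rw [intervalIntegral.integral_finsetSum fun (k : ℕ) _ =>
        (hG.comp_add_right (k * P)).intervalIntegrable,
        ← split_integral _ (fun a b => hG.intervalIntegrable) α P K,
        intervalIntegral.integral_of_le (by nlinarith)]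
      rw [← h n, ← integral_indicator measurableSet_Ioc]
      refine integral_congr_ae (Filter.Eventually.of_forall fun x => ?_)
      simp only
      by_cases hx : x ∈ Set.Ioc α (α + K * P)
      · rw [Set.indicator_of_mem hx]
      · rw [Set.indicator_of_notMem hx, hs x, mul_zero]
        intro hxI
        exact hx ⟨hxI.1, by have := hxI.2; linarith⟩
    rw [e3, smul_zero]
  have hpars := hasSum_sq_fourierCoeffOn hab hmem
  simp only [hcoef, norm_zero, ne_eq, OfNat.ofNat_ne_zero, not_false_eq_true, zero_pow] at hpars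
  have h0 := hpars.unique hasSum_zero
  rw [smul_eq_zero] at h0
  rcases h0 with h0 | h0
  · exfalso
    rw [inv_eq_zero] at h0
    linarith
  · rw [intervalIntegral.integral_of_le hab.le] at h0
    have h1 := (integral_eq_zero_iff_of_nonneg (fun x => by positivity)
      ((memLp_two_iff_integrable_sq_norm hmem.1).1 hmem)).1 h0
    filter_upwards [h1] with z hz
    simpa using hz

end Pool.Agent.Restart
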