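import Pool.Agent.Restart.System

/-!
The operator on explicit functions, linearity of the root subspaces, regularity.
-/

namespace Pool.Agent.Restart

open Finset MeasureTheory Real

/-- The closed interval. -/
abbrev J : Set ℝ := Set.Icc (-(π / 2)) (π / 2)

lemma integrableOn_I (g : Space) : IntegrableOn g I :=
  (Lp.memLp g).integrable (by norm_num)

lemma intInt (g : Space) {x : ℝ} (hx : x ∈ J) : IntervalIntegrable g volume (-(π / 2)) x := by
  rw [intervalIntegrable_iff_integrableOn_Ioo_of_le hx.1]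
  exact (integrableOn_I g).mono_set (Set.Ioo_subset_Ioo_right hx.2)

lemma integral_congr_I {g h : ℝ → ℂ} (hgh : ∀ᵐ x ∂(volume : Measure ℝ).restrict I, g x = h x)
    {x : ℝ} (hx : x ∈ J) :
    ∫ t in (-(π / 2))..x, g t = ∫ t in (-(π / 2))..x, h t := by
  rw [intervalIntegral.integral_of_le hx.1, intervalIntegral.integral_of_le hx.1,
    integral_Ioc_eq_integral_Ioo, integral_Ioc_eq_integral_Ioo]
  exact integral_congr_ae (ae_restrict_of_ae_restrict_of_subset (Set.Ioo_subset_Ioo_right hx.2) hgh)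

variable {a : ℝ}

lemma IsImage.zero : IsImage a 0 0 := by
  refine ⟨fun _ => 0, fun _ => 0, Lp.coeFn_zero (E := ℂ) (p := 2) _, fun x _ =>
    hasDerivWithinAt_const _ _ _, fun x hx => ?_, rfl, rfl⟩
  rw [integral_congr_I (Lp.coeFn_zero (E := ℂ) (p := 2) _) hx]
  simp

lemma IsImage.add {f g f' g' : Space} (h : IsImage a f g) (h' : IsImage a f' g') :
    IsImage a (f + f') (g + g') := by
  obtain ⟨u, v, h1, h2, h3, h4, h5⟩ := h
  obtain ⟨u', v', h1', h2', h3', h4', h5'⟩ := h'
  refine ⟨fun x => u x + u' x, fun x => v x + v' x, ?_, fun x hx => (h2 x hx).add (h2' x hx),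
    fun x hx => ?_, ?_, ?_⟩
  · filter_upwards [h1, h1', Lp.coeFn_add f f'] with x e1 e2 e3
    rw [e3, Pi.add_apply, e1, e2]
  · rw [integral_congr_I (h := fun x => g x + g' x) (Lp.coeFn_add g g') hx,
      intervalIntegral.integral_add (intInt g hx) (intInt g' hx)]
    change v x + v' x = v (-(π / 2)) + v' (-(π / 2)) - _
    rw [h3 x hx, h3' x hx]
    ring
  · simp only [h4, h4']
  · simp only [h5, h5']

lemma IsImage.smul {f g : Space} (c : ℂ) (h : IsImage a f g) : IsImage a (c • f) (c • g) := by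
  obtain ⟨u, v, h1, h2, h3, h4, h5⟩ := h
  refine ⟨fun x => c * u x, fun x => c * v x, ?_, fun x hx => (h2 x hx).const_mul c,
    fun x hx => ?_, ?_, ?_⟩
  · filter_upwards [h1, Lp.coeFn_smul c f] with x e1 e3
    rw [e3, Pi.smul_apply, e1, smul_eq_mul]
  · rw [integral_congr_I (h := fun x => c * g x) (by
      filter_upwards [Lp.coeFn_smul c g] with x e3
      rw [e3, Pi.smul_apply, smul_eq_mul]) hx, intervalIntegral.integral_const_mul]
    change c * v x = c * v (-(π / 2)) - _
    rw [h3 x hx]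
    ring
  · simp only [h4]
  · simp only [h5]

lemma IsRoot.zero {z : ℂ} (k : ℕ) : IsRoot a z k 0 := by
  induction k with
  | zero => exact rfl
  | succ k ih => exact ⟨0, IsImage.zero, by simpa using ih⟩

lemma IsRoot.add {z : ℂ} {k : ℕ} : ∀ {f f' : Space}, IsRoot a z k f → IsRoot a z k f' →
    IsRoot a z k (f + f') := by
  induction k with
  | zero =>
    intro f f' h h'
    simp only [IsRoot] at h h' ⊢
    rw [h, h', add_zero]
  | succ k ih =>
    rintro f f' ⟨g, h1, h2⟩ ⟨g', h1', h2'⟩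
    refine ⟨g + g', h1.add h1', ?_⟩
    have := ih h2 h2'
    convert this using 1
    module

lemma IsRoot.smul {z : ℂ} {k : ℕ} (c : ℂ) : ∀ {f : Space}, IsRoot a z k f →
    IsRoot a z k (c • f) := by
  induction k with
  | zero =>
    intro f h
    simp only [IsRoot] at h ⊢
    rw [h, smul_zero]
  | succ k ih =>
    rintro f ⟨g, h1, h2⟩
    refine ⟨c • g, h1.smul c, ?_⟩
    have := ih h2
    convert this using 1
    module

lemma IsRoot.succ {z : ℂ} {k : ℕ} : ∀ {f : Space}, IsRoot a z k f → IsRoot a z (k + 1) f := by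
  induction k with
  | zero =>
    intro f h
    simp only [IsRoot] at h
    rw [h]
    exact IsRoot.zero 1
  | succ k ih =>
    rintro f ⟨g, h1, h2⟩
    exact ⟨g, h1, ih h2⟩

lemma IsRoot.mono {z : ℂ} {k l : ℕ} (h : k ≤ l) {f : Space} (hf : IsRoot a z k f) :
    IsRoot a z l f := by
  induction l, h using Nat.le_induction with
  | base => exact hf
  | succ l _ ih => exact ih.succ

/-- The root subspace. -/
def rootSub (a : ℝ) (z : ℂ) : Submodule ℂ Space where
  carrier := {f | ∃ k, IsRoot a z k f}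
  zero_mem' := ⟨0, IsRoot.zero 0⟩
  add_mem' := by
    rintro f f' ⟨k, h⟩ ⟨l, h'⟩
    exact ⟨max k l, (h.mono (le_max_left _ _)).add (h'.mono (le_max_right _ _))⟩
  smul_mem' := by
    rintro c f ⟨k, h⟩
    exact ⟨k, h.smul c⟩

lemma isImage_of_smooth {u v w : ℝ → ℂ} (hu : Continuous u) (hw : Continuous w)
    (h1 : ∀ x, HasDerivAt u (v x) x) (h2 : ∀ x, HasDerivAt v (-w x) x)
    (h3 : u (-(π / 2)) = u (a * (π / 2))) (h4 : u (a * (π / 2)) = u (π / 2)) :
    IsImage a (toSp u hu) (toSp w hw) := by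
  refine ⟨u, v, toSp_ae u hu, fun x _ => (h1 x).hasDerivWithinAt, fun x hx => ?_, h3, h4⟩
  rw [integral_congr_I (toSp_ae w hw) hx]
  have := intervalIntegral.integral_eq_sub_of_hasDerivAt (fun t _ => h2 t)
    ((by fun_prop : Continuous fun t => -w t).intervalIntegrable (-(π / 2)) x)
  rw [intervalIntegral.integral_neg] at this
  linear_combination -this

lemma regular {f g : Space} {z : ℂ} {h : ℝ → ℂ} (hh : Continuous h) (hfg : IsImage a f g)
    (e : g - z • f = toSp h hh) :
    ∃ u v : ℝ → ℂ, (∀ᵐ x ∂(volume : Measure ℝ).restrict I, f x = u x) ∧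
      (∀ x ∈ J, HasDerivWithinAt u (v x) J x) ∧
      (∀ x ∈ J, HasDerivWithinAt v (-(z * u x + h x)) J x) ∧
      u (-(π / 2)) = u (a * (π / 2)) ∧ u (a * (π / 2)) = u (π / 2) := by
  have hpi := Real.pi_pos
  have hle : -(π / 2) ≤ π / 2 := by linarith
  obtain ⟨u, v, h1, h2, h3, h4, h5⟩ := hfg
  refine ⟨u, v, h1, h2, fun x hx => ?_, h4, h5⟩
  have e' : g = z • f + toSp h hh := by rw [← e]; abel
  have hc : ContinuousOn (fun t => z * u t + h t) J := by
    have : ContinuousOn u J := fun t ht => (h2 t ht).continuousWithinAt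
    fun_prop
  set φ : ℝ → ℂ := Set.IccExtend hle (J.domRestrict fun t => z * u t + h t) with hφ
  have hφc : Continuous φ := hc.domRestrict.Icc_extend'
  have hφe : ∀ t ∈ J, φ t = z * u t + h t := fun t ht => by
    rw [hφ, Set.IccExtend_of_mem hle _ ht]
    rfl
  have hae : ∀ᵐ t ∂(volume : Measure ℝ).restrict I, g t = φ t := by
    rw [e']
    filter_upwards [Lp.coeFn_add (z • f) (toSp h hh), Lp.coeFn_smul z f, toSp_ae h hh, h1,
      ae_restrict_mem measurableSet_Ioo] with t t1 t2 t3 t4 t5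
    rw [t1, Pi.add_apply, t2, Pi.smul_apply, t3, t4, hφe t ⟨t5.1.le, t5.2.le⟩, smul_eq_mul]
  have hv : ∀ y ∈ J, v y = v (-(π / 2)) - ∫ t in (-(π / 2))..y, φ t := fun y hy => by
    rw [h3 y hy, integral_congr_I hae hy]
  have hd : HasDerivAt (fun y => v (-(π / 2)) - ∫ t in (-(π / 2))..y, φ t) (-φ x) x := by
    have := (hφc.integral_hasStrictDerivAt (-(π / 2)) x).hasDerivAt
    simpa using this.const_sub (v (-(π / 2)))
  rw [← hφe x hx]
  exact hd.hasDerivWithinAt.congr hv (hv x hx)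

lemma const_of_deriv_zero {c : ℝ → ℂ} (h : ∀ x ∈ J, HasDerivWithinAt c 0 J x) :
    ∀ x ∈ J, c x = c (-(π / 2)) := by
  refine constant_of_has_deriv_right_zero (fun x hx => (h x hx).continuousWithinAt) ?_
  intro x hx
  refine (h x ⟨hx.1, hx.2.le⟩).mono_of_mem_nhdsWithin ?_
  exact Icc_mem_nhdsGE_of_mem hx

end Pool.Agent.Restart
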