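import Pool.Agent.Restart.Spectral
import Pool.Agent.Restart.Complete

/-!
The root system is a Schauder basis.
-/

namespace Pool.Agent.Restart

open Finset MeasureTheory Real

variable (p r : ℕ) [NeZero p] [NeZero r]

lemma linearIndependent_vec (hpr : Nat.Coprime p r) : LinearIndependent ℂ (vec p r) := by
  obtain ⟨m, M, hm, h⟩ := bounds_vec p r hpr
  rw [linearIndependent_iff']
  intro s g hg i hi
  have h1 := (h s g).1
  rw [hg, norm_zero] at h1
  have h2 : ‖g i‖ ^ 2 ≤ ∑ i ∈ s, ‖g i‖ ^ 2 :=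
    single_le_sum (f := fun i => ‖g i‖ ^ 2) (fun i _ => by positivity) hi
  have h3 : ‖g i‖ ^ 2 ≤ 0 := by nlinarith
  have h4 : ‖g i‖ = 0 := by
    have := sq_nonneg ‖g i‖
    exact pow_eq_zero_iff (two_ne_zero) |>.1 (le_antisymm h3 this)
  exact norm_eq_zero.1 h4

instance : Infinite (Idx r) := inferInstance

theorem main_nat (hpr : Nat.Coprime p r) :
    ∃ ψ : ℕ → Space, IsRootSystem (par p r) ψ ∧ IsSchauderBasis ψ := by
  obtain ⟨e⟩ : Nonempty (ℕ ≃ Idx r) := nonempty_equiv_of_countable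
  refine ⟨fun j => vec p r (e j), ⟨fun j => ((freq p r (e j) : ℝ) : ℂ) ^ 2, fun z => ⟨?_, ?_⟩⟩, ?_⟩
  · exact (linearIndependent_vec p r hpr).comp
      (fun j : {j : ℕ // ((freq p r (e j) : ℝ) : ℂ) ^ 2 = z} => e j)
      (e.injective.comp Subtype.val_injective)
  · have h := V_eq_rootSub p r hpr z
    have h1 : (fun j => vec p r (e j)) '' {j | ((freq p r (e j) : ℝ) : ℂ) ^ 2 = z} =
        vec p r '' {i | ((freq p r i : ℝ) : ℂ) ^ 2 = z} := by
      ext f
      constructor
      · rintro ⟨j, hj, rfl⟩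
        exact ⟨e j, hj, rfl⟩
      · rintro ⟨i, hi, rfl⟩
        exact ⟨e.symm i, by simpa using hi, by simp⟩
    rw [h1]
    have h2 : (Submodule.span ℂ (vec p r '' {i | ((freq p r i : ℝ) : ℂ) ^ 2 = z}) : Set Space) =
      (V p r z : Set Space) := rfl
    rw [h2, h]
    rfl
  · obtain ⟨m, M, hm, h⟩ := bounds_vec p r hpr
    have hsum : ∀ (s : Finset ℕ) (c : ℕ → ℂ), ∑ i ∈ s, c i • vec p r (e i) =
        ∑ i ∈ s.map e.toEmbedding, c (e.symm i) • vec p r i := by
      intro s c
      rw [sum_map]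
      simp
    have hsum2 : ∀ (s : Finset ℕ) (c : ℕ → ℂ), ∑ i ∈ s, ‖c i‖ ^ 2 =
        ∑ i ∈ s.map e.toEmbedding, ‖c (e.symm i)‖ ^ 2 := by
      intro s c
      rw [sum_map]
      simp
    refine isSchauderBasis_of_riesz (m := m) (M := M) hm (fun s c => ?_) (fun s c => ?_) ?_
    · rw [hsum, hsum2]
      exact (h _ _).2
    · rw [hsum, hsum2]
      exact (h _ _).1
    · have : Set.range (fun j => vec p r (e j)) = Set.range (vec p r) :=
        e.surjective.range_comp (vec p r)
      rw [this]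
      exact dense_span p r hpr

theorem main (a : ℚ) (h1 : -1 < a) (h2 : a < 1) :
    ∃ ψ : ℕ → Space, IsRootSystem (a : ℝ) ψ ∧ IsSchauderBasis ψ := by
  set b : ℚ := (a + 1) / 2 with hb
  have hb0 : 0 < b := by rw [hb]; linarith
  have hb1 : b < 1 := by rw [hb]; linarith
  obtain ⟨p, hp⟩ : ∃ p : ℕ, b.num = p := Int.eq_ofNat_of_zero_le (Rat.num_nonneg.2 hb0.le)
  have hp0 : 0 < p := by
    have := Rat.num_pos.2 hb0
    omega
  have hlt : p < b.den := by
    have := Rat.num_lt_denom_iff.2 hb1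
    omega
  obtain ⟨r, hr⟩ : ∃ r, b.den = p + r := ⟨b.den - p, by omega⟩
  have hr0 : 0 < r := by omega
  have : NeZero p := ⟨hp0.ne'⟩
  have : NeZero r := ⟨hr0.ne'⟩
  have hpr : Nat.Coprime p r := by
    have := b.reduced
    rw [hp, hr] at this
    simpa using this
  have e : par p r = (a : ℝ) := by
    have hq : b = (p : ℚ) / (p + r) := by
      conv_lhs => rw [← Rat.num_div_den b, hp, hr]
      push_cast
      rfl
    have ha : a = 2 * ((p : ℚ) / (p + r)) - 1 := by
      rw [← hq, hb]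
      ring
    rw [ha]
    have : ((p : ℝ) + r) ≠ 0 := by
      have : (0 : ℝ) < p := by exact_mod_cast hp0
      positivity
    unfold par
    push_cast
    field_simp
    ring
  rw [← e]
  exact main_nat p r hpr

end Pool.Agent.Restart
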