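import Pool.Agent.Restart.Image

/-!
Solving the differential equations.
-/

namespace Pool.Agent.Restart

open Finset MeasureTheory Real

lemma hasDerivAt_ccos (k : ℂ) (x : ℝ) :
    HasDerivAt (fun x : ℝ => Complex.cos (k * x)) (-(k * Complex.sin (k * x))) x := by
  have := (((hasDerivAt_id (x : ℂ)).const_mul k).ccos).comp_ofReal
  simpa [mul_comm] using this

lemma hasDerivAt_csin (k : ℂ) (x : ℝ) :
    HasDerivAt (fun x : ℝ => Complex.sin (k * x)) (k * Complex.cos (k * x)) x := by
  have := (((hasDerivAt_id (x : ℂ)).const_mul k).csin).comp_ofReal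
  simpa [mul_comm] using this

lemma hasDerivAt_coe (x : ℝ) : HasDerivAt (fun x : ℝ => (x : ℂ)) 1 x :=
  (hasDerivAt_id (x : ℂ)).comp_ofReal

lemma ode_solution {k : ℂ} (hk : k ≠ 0) {w w' : ℝ → ℂ}
    (h1 : ∀ x ∈ J, HasDerivWithinAt w (w' x) J x)
    (h2 : ∀ x ∈ J, HasDerivWithinAt w' (-(k ^ 2 * w x)) J x) :
    ∃ A B : ℂ, ∀ x ∈ J, w x = A * Complex.cos (k * x) + B * Complex.sin (k * x) := by
  have c1 := const_of_deriv_zero
    (c := fun x => w x * Complex.cos (k * x) - w' x * Complex.sin (k * x) / k) (fun x hx => by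
      have := ((h1 x hx).mul (hasDerivAt_ccos k x).hasDerivWithinAt).sub
        (((h2 x hx).mul (hasDerivAt_csin k x).hasDerivWithinAt).div_const k)
      refine this.congr_deriv ?_
      field_simp
      ring)
  have c2 := const_of_deriv_zero
    (c := fun x => w x * Complex.sin (k * x) + w' x * Complex.cos (k * x) / k) (fun x hx => by
      have := ((h1 x hx).mul (hasDerivAt_csin k x).hasDerivWithinAt).add
        (((h2 x hx).mul (hasDerivAt_ccos k x).hasDerivWithinAt).div_const k)
      refine this.congr_deriv ?_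
      field_simp
      ring)
  refine ⟨w (-(π / 2)) * Complex.cos (k * (-(π / 2) : ℝ)) - w' (-(π / 2)) *
    Complex.sin (k * (-(π / 2) : ℝ)) / k, w (-(π / 2)) * Complex.sin (k * (-(π / 2) : ℝ)) +
    w' (-(π / 2)) * Complex.cos (k * (-(π / 2) : ℝ)) / k, fun x hx => ?_⟩
  rw [← c1 x hx, ← c2 x hx]
  have := Complex.sin_sq_add_cos_sq (k * x)
  linear_combination (-w x) * this

lemma ode_zero {w w' : ℝ → ℂ} (h1 : ∀ x ∈ J, HasDerivWithinAt w (w' x) J x)
    (h2 : ∀ x ∈ J, HasDerivWithinAt w' 0 J x) :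
    ∃ A B : ℂ, ∀ x ∈ J, w x = A + B * x := by
  have c1 := const_of_deriv_zero h2
  have c2 := const_of_deriv_zero
    (c := fun x => w x - w' (-(π / 2)) * x) (fun x hx => by
      have := (h1 x hx).sub ((hasDerivAt_coe x).const_mul (w' (-(π / 2)))).hasDerivWithinAt
      refine this.congr_deriv ?_
      rw [c1 x hx]
      ring)
  refine ⟨w (-(π / 2)) - w' (-(π / 2)) * (-(π / 2) : ℝ), w' (-(π / 2)), fun x hx => ?_⟩
  rw [← c2 x hx]
  ring

/-- The general root function. -/
noncomputable def S (k α β γ : ℂ) (x : ℝ) : ℂ :=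
  α * Complex.cos (k * x) + β * Complex.sin (k * x) + γ * (x * Complex.sin (k * x))

lemma S_continuous (k α β γ : ℂ) : Continuous (S k α β γ) := by
  unfold S
  fun_prop

/-- The conditions on the coefficients of the general root function. -/
def Cond (a : ℝ) (k α β γ : ℂ) : Prop :=
  β * Complex.sin (k * (π / 2 : ℝ)) = 0 ∧
  α * (Complex.cos (k * (π / 2 : ℝ)) - Complex.cos (k * (a * (π / 2) : ℝ))) =
    β * Complex.sin (k * (a * (π / 2) : ℝ)) ∧
  γ * Complex.sin (k * (π / 2 : ℝ)) = 0 ∧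
  γ * (Complex.cos (k * (π / 2 : ℝ)) - Complex.cos (k * (a * (π / 2) : ℝ))) = 0

theorem step {a : ℝ} (ha1 : -1 < a) (ha2 : a < 1) {f g : Space} {k α β γ : ℂ} (hk : k ≠ 0)
    (hc : Cond a k α β γ) (hfg : IsImage a f g)
    (e : g - k ^ 2 • f = toSp (S k α β γ) (S_continuous _ _ _ _)) :
    ∃ A B G : ℂ, Cond a k A B G ∧ f = toSp (S k A B G) (S_continuous _ _ _ _) := by
  have hpi := Real.pi_pos
  obtain ⟨u, v, hu, huv, hv, hb1, hb2⟩ := regular (S_continuous _ _ _ _) hfg e
  obtain ⟨A, B, hw⟩ := ode_solution hk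
    (w := fun x => u x + α * (x * Complex.sin (k * x)) / (2 * k) -
      β * (x * Complex.cos (k * x)) / (2 * k) -
      γ * ((x ^ 2 * Complex.cos (k * x)) / (4 * k) - x * Complex.sin (k * x) / (4 * k ^ 2)))
    (w' := fun x => v x + α * (Complex.sin (k * x) + x * (k * Complex.cos (k * x))) / (2 * k) -
      β * (Complex.cos (k * x) - x * (k * Complex.sin (k * x))) / (2 * k) -
      γ * ((2 * x * Complex.cos (k * x) - x ^ 2 * (k * Complex.sin (k * x))) / (4 * k) -
        (Complex.sin (k * x) + x * (k * Complex.cos (k * x))) / (4 * k ^ 2)))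
    (fun x hx => by
      have d1 := (hasDerivAt_coe x).mul (hasDerivAt_csin k x)
      have d2 := (hasDerivAt_coe x).mul (hasDerivAt_ccos k x)
      have d3 := ((hasDerivAt_coe x).pow 2).mul (hasDerivAt_ccos k x)
      have := (((huv x hx).add (((d1.const_mul α).div_const (2 * k)).hasDerivWithinAt)).sub
        (((d2.const_mul β).div_const (2 * k)).hasDerivWithinAt)).sub
        ((((d3.div_const (4 * k)).sub (d1.div_const (4 * k ^ 2))).const_mul γ).hasDerivWithinAt)
      refine this.congr_deriv ?_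
      simp only [Nat.cast_ofNat, Nat.add_one_sub_one, pow_one, Pi.pow_apply]
      ring)
    (fun x hx => by
      have d1 := (hasDerivAt_coe x).mul ((hasDerivAt_csin k x).const_mul k)
      have d2 := (hasDerivAt_coe x).mul ((hasDerivAt_ccos k x).const_mul k)
      have d3 := ((hasDerivAt_coe x).pow 2).mul ((hasDerivAt_csin k x).const_mul k)
      have d4 := ((hasDerivAt_coe x).const_mul 2).mul (hasDerivAt_ccos k x)
      have s1 := (hasDerivAt_csin k x).add d2
      have s2 := (hasDerivAt_ccos k x).sub d1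
      have s3 := d4.sub d3
      have := (((hv x hx).add (((s1.const_mul α).div_const (2 * k)).hasDerivWithinAt)).sub
        (((s2.const_mul β).div_const (2 * k)).hasDerivWithinAt)).sub
        ((((s3.div_const (4 * k)).sub (s1.div_const (4 * k ^ 2))).const_mul γ).hasDerivWithinAt)
      refine this.congr_deriv ?_
      unfold S
      simp only [Nat.cast_ofNat, Nat.add_one_sub_one, pow_one, Pi.pow_apply]
      field_simp
      ring)
  have he : (π / 2) ∈ J := ⟨by linarith, le_rfl⟩
  have hne : -(π / 2) ∈ J := ⟨le_rfl, by linarith⟩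
  have hb : a * (π / 2) ∈ J := ⟨by nlinarith, by nlinarith⟩
  have w1 := hw _ he
  have w2 := hw _ hne
  have w3 := hw _ hb
  rw [Complex.ofReal_neg, mul_neg, Complex.cos_neg, Complex.sin_neg] at w2
  have hsc := Complex.sin_sq_add_cos_sq (k * (π / 2 : ℝ))
  have hsc' := Complex.sin_sq_add_cos_sq (k * (a * (π / 2) : ℝ))
  obtain ⟨C1, C2, C3, C4⟩ := hc
  have he0 : ((π / 2 : ℝ) : ℂ) ≠ 0 := by exact_mod_cast (by positivity : (π / 2 : ℝ) ≠ 0)
  have hbe : ((a * (π / 2) : ℝ) : ℂ) ^ 2 ≠ ((π / 2 : ℝ) : ℂ) ^ 2 := by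
    intro h
    have h' : (a * (π / 2)) ^ 2 = (π / 2) ^ 2 := by exact_mod_cast h
    have h2 : (a * (π / 2)) ^ 2 < (π / 2) ^ 2 := by
      rw [mul_pow]
      have : a ^ 2 < 1 := by nlinarith
      nlinarith [pow_pos (by positivity : (0 : ℝ) < π / 2) 2]
    exact absurd h' h2.ne
  set s := Complex.sin (k * (π / 2 : ℝ)) with hs
  set c := Complex.cos (k * (π / 2 : ℝ)) with hcc
  set s' := Complex.sin (k * (a * (π / 2) : ℝ)) with hs'
  set c' := Complex.cos (k * (a * (π / 2) : ℝ)) with hc'
  set E : ℂ := ((π / 2 : ℝ) : ℂ) with hE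
  set b : ℂ := ((a * (π / 2) : ℝ) : ℂ) with hbdef
  have hb12 : u (-(π / 2)) = u (π / 2) := hb1.trans hb2
  have E1 : B * s + β * E * c / (2 * k) = 0 := by
    linear_combination (1 / 2) * w2 - (1 / 2) * w1 - (1 / 2) * hb12
  have hβ : β = 0 := by
    by_contra hβ
    have hs0 : s = 0 := (mul_eq_zero.1 C1).resolve_left hβ
    rw [hs0, mul_zero, zero_add, div_eq_zero_iff, mul_eq_zero, mul_eq_zero] at E1
    rcases E1 with ((h | h) | h) | h
    · exact hβ h
    · exact he0 h
    · rw [hs0, h] at hsc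
      norm_num at hsc
    · exact (mul_ne_zero two_ne_zero hk) h
  have hBs : B * s = 0 := by
    rw [hβ] at E1
    linear_combination E1
  have E2 : A * c' + B * s' - α * (b * s') / (2 * k) + γ * (b ^ 2 * c' / (4 * k) -
      b * s' / (4 * k ^ 2)) = A * c - α * (E * s) / (2 * k) + γ * (E ^ 2 * c / (4 * k) -
      E * s / (4 * k ^ 2)) := by
    rw [hβ] at w1 w3
    linear_combination w1 - w3 + hb2 + hBs
  have hγ : γ = 0 := by
    by_contra hγ
    have hs0 : s = 0 := (mul_eq_zero.1 C3).resolve_left hγ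
    have hcc0 : c = c' := sub_eq_zero.1 ((mul_eq_zero.1 C4).resolve_left hγ)
    have hs'0 : s' = 0 := by
      have : s' ^ 2 = 0 := by
        rw [← hcc0] at hsc'
        rw [hs0] at hsc
        linear_combination hsc' - hsc
      exact pow_eq_zero_iff (two_ne_zero) |>.1 this
    rw [hs0, hs'0, ← hcc0] at E2
    have h0 : γ * c * (b ^ 2 - E ^ 2) / (4 * k) = 0 := by linear_combination E2
    have h1 := (div_eq_zero_iff.1 h0).resolve_right (mul_ne_zero (by norm_num) hk)
    rcases mul_eq_zero.1 h1 with h | h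
    · rcases mul_eq_zero.1 h with h | h
      · exact hγ h
      · rw [hs0, h] at hsc
        norm_num at hsc
    · exact hbe (sub_eq_zero.1 h)
  have hfin : s = 0 ∧ c = c' ∧ s' = 0 ∨ α = 0 ∧ A * (c - c') = B * s' := by
    by_cases hα : α = 0
    · right
      refine ⟨hα, ?_⟩
      rw [hα, hγ] at E2
      linear_combination -E2
    · left
      have hcc0 : c = c' := by
        rw [hβ, zero_mul] at C2
        exact sub_eq_zero.1 ((mul_eq_zero.1 C2).resolve_left hα)
      have hss : s' ^ 2 = s ^ 2 := by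
        rw [← hcc0] at hsc'
        linear_combination hsc' - hsc
      rw [hγ, ← hcc0] at E2
      have hs0 : s = 0 := by
        by_contra hs0
        have hB : B = 0 := (mul_eq_zero.1 hBs).resolve_right hs0
        rw [hB] at E2
        have h0 : α * (b * s' - E * s) / (2 * k) = 0 := by linear_combination -E2
        have h1 := (div_eq_zero_iff.1 h0).resolve_right (mul_ne_zero two_ne_zero hk)
        have h2 : b * s' = E * s := sub_eq_zero.1 ((mul_eq_zero.1 h1).resolve_left hα)
        have h3 : (b ^ 2 - E ^ 2) * s ^ 2 = 0 := by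
          have : b ^ 2 * s' ^ 2 = E ^ 2 * s ^ 2 := by
            rw [← mul_pow, h2, mul_pow]
          rw [hss] at this
          linear_combination this
        rcases mul_eq_zero.1 h3 with h | h
        · exact hbe (sub_eq_zero.1 h)
        · exact hs0 (pow_eq_zero_iff two_ne_zero |>.1 h)
      refine ⟨hs0, hcc0, ?_⟩
      rw [hs0] at hss
      exact pow_eq_zero_iff two_ne_zero |>.1 (by simpa using hss)
  refine ⟨A, B, -(α / (2 * k)), ?_, ?_⟩
  · unfold Cond
    rcases hfin with ⟨h1, h2, h3⟩ | ⟨h1, h2⟩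
    · refine ⟨hBs, ?_, ?_, ?_⟩
      · rw [← hcc, ← hc', ← hs', h2, h3]
        ring
      · rw [← hs, h1, mul_zero]
      · rw [← hcc, ← hc', h2, sub_self, mul_zero]
    · refine ⟨hBs, h2, ?_, ?_⟩ <;> rw [h1] <;> ring
  · refine Lp.ext ?_
    filter_upwards [hu, toSp_ae (S k A B (-(α / (2 * k)))) (S_continuous _ _ _ _),
      ae_restrict_mem measurableSet_Ioo] with x x1 x2 x3
    rw [x1, x2]
    have := hw x ⟨x3.1.le, x3.2.le⟩
    rw [hβ, hγ] at this
    unfold S
    linear_combination this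

theorem step_zero {a : ℝ} (ha1 : -1 < a) (ha2 : a < 1) {f g : Space} {α : ℂ}
    (hfg : IsImage a f g)
    (e : g - (0 : ℂ) • f = toSp (fun _ => α) continuous_const) :
    ∃ A : ℂ, f = toSp (fun _ => A) continuous_const := by
  have hpi := Real.pi_pos
  obtain ⟨u, v, hu, huv, hv, hb1, hb2⟩ := regular continuous_const hfg e
  obtain ⟨A, B, hw⟩ := ode_zero
    (w := fun x => u x + α * x ^ 2 / 2)
    (w' := fun x => v x + α * x)
    (fun x hx => by
      have d3 := (hasDerivAt_coe x).pow 2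
      have := (huv x hx).add (((d3.const_mul α).div_const 2).hasDerivWithinAt)
      refine this.congr_deriv ?_
      simp only [Nat.cast_ofNat, Nat.add_one_sub_one, pow_one]
      ring)
    (fun x hx => by
      have := (hv x hx).add ((hasDerivAt_coe x).const_mul α).hasDerivWithinAt
      refine this.congr_deriv ?_
      ring)
  have he : (π / 2) ∈ J := ⟨by linarith, le_rfl⟩
  have hne : -(π / 2) ∈ J := ⟨le_rfl, by linarith⟩
  have hb : a * (π / 2) ∈ J := ⟨by nlinarith, by nlinarith⟩
  have w1 := hw _ he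
  have w2 := hw _ hne
  have w3 := hw _ hb
  have hb12 : u (-(π / 2)) = u (π / 2) := hb1.trans hb2
  have he0 : ((π / 2 : ℝ) : ℂ) ≠ 0 := by exact_mod_cast (by positivity : (π / 2 : ℝ) ≠ 0)
  have hbe : ((a * (π / 2) : ℝ) : ℂ) ^ 2 ≠ ((π / 2 : ℝ) : ℂ) ^ 2 := by
    intro h
    have h' : (a * (π / 2)) ^ 2 = (π / 2) ^ 2 := by exact_mod_cast h
    have h2 : (a * (π / 2)) ^ 2 < (π / 2) ^ 2 := by
      rw [mul_pow]
      have : a ^ 2 < 1 := by nlinarith
      nlinarith [pow_pos (by positivity : (0 : ℝ) < π / 2) 2]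
    exact absurd h' h2.ne
  rw [Complex.ofReal_neg] at w2
  set E : ℂ := ((π / 2 : ℝ) : ℂ) with hE
  set b : ℂ := ((a * (π / 2) : ℝ) : ℂ) with hbdef
  have hB : B = 0 := by
    have : B * E = 0 := by linear_combination (1 / 2) * w2 - (1 / 2) * w1 - (1 / 2) * hb12
    exact (mul_eq_zero.1 this).resolve_right he0
  have hα : α = 0 := by
    have : α * (b ^ 2 - E ^ 2) = 0 := by
      rw [hB] at w1 w3
      linear_combination 2 * (w3 - w1 - hb2)
    rcases mul_eq_zero.1 this with h | h
    · exact h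
    · exact absurd (sub_eq_zero.1 h) hbe
  refine ⟨A, Lp.ext ?_⟩
  filter_upwards [hu, toSp_ae (fun _ => A) continuous_const,
    ae_restrict_mem measurableSet_Ioo] with x x1 x2 x3
  rw [x1, x2]
  have := hw x ⟨x3.1.le, x3.2.le⟩
  rw [hα, hB] at this
  linear_combination this

end Pool.Agent.Restart
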