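import Mathlib

/-!
The finite-dimensional estimate for sums of periodic sequences.
-/

namespace Pool.Agent.Restart

open Finset

lemma vanish_of_rec {p r : ℕ} (hp : 0 < p) (hr : 0 < r) (s : ℕ → ℂ)
    (h : ∀ l, s (l + p + r) + s l = s (l + p) + s (l + r)) (h0 : ∀ l < p + r, s l = 0) :
    ∀ l, s l = 0 := by
  intro l
  induction l using Nat.strong_induction_on with
  | _ l ih =>
    by_cases hl : l < p + r
    · exact h0 l hl
    · obtain ⟨k, rfl⟩ := Nat.exists_eq_add_of_le (not_lt.1 hl)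
      have h1 := h k
      rw [ih k (by omega), ih (k + p) (by omega), ih (k + r) (by omega)] at h1
      rw [show p + r + k = k + p + r by ring]
      simpa using h1

lemma injective_aux {p r : ℕ} (hp : 0 < p) (hr : 0 < r) (hpr : Nat.Coprime p r) {δ : ℝ}
    (hδ : δ ≠ 0) (y : ℝ) (P R : ℕ → ℂ) (h : ℂ) (hP : ∀ l, P (l + p) = P l)
    (hR : ∀ l, R (l + r) = R l) (hsum : ∑ l ∈ range r, R l = 0)
    (h0 : ∀ l < p + r, P l + R l + ((y + l * δ : ℝ) : ℂ) * h = 0) :
    (∀ l, P l = 0) ∧ (∀ l, R l = 0) ∧ h = 0 := by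
  have hs := vanish_of_rec hp hr (fun l => P l + R l + ((y + l * δ : ℝ) : ℂ) * h) (by
    intro l
    have e1 : P (l + p + r) = P (l + r) := by rw [add_right_comm, hP]
    have e2 : R (l + p + r) = R (l + p) := hR _
    simp only [e1, e2, hP, hR]
    push_cast
    ring) h0
  have hP' : Function.Periodic P p := hP
  have hR' : Function.Periodic R r := hR
  have hh : h = 0 := by
    have h1 := hs 0
    have h2 := hs (p * r)
    have e1 : P (p * r) = P 0 := by
      rw [← hP'.map_mod_nat (p * r)]; simp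
    have e2 : R (p * r) = R 0 := by
      rw [← hR'.map_mod_nat (p * r)]; simp
    simp only [e1, e2] at h2
    have h3 : ((p * r * δ : ℝ) : ℂ) * h = 0 := by
      push_cast at h1 h2 ⊢
      linear_combination h2 - h1
    rcases mul_eq_zero.1 h3 with h4 | h4
    · exfalso
      have : (p * r * δ : ℝ) = 0 := by exact_mod_cast h4
      have hp' : (p : ℝ) ≠ 0 := by positivity
      have hr' : (r : ℝ) ≠ 0 := by positivity
      exact (mul_ne_zero (mul_ne_zero hp' hr') hδ) this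
    · exact h4
  subst hh
  have hPR : ∀ l, P l = - R l := by
    intro l
    have := hs l
    simp only [mul_zero, add_zero] at this
    exact eq_neg_of_add_eq_zero_left this
  have hconst : ∀ l, P l = - R 0 := by
    intro l
    obtain ⟨k, hk1, hk2⟩ := Nat.chineseRemainder hpr l 0
    rw [← hP'.map_mod_nat l, ← (show k % p = l % p from hk1), hP'.map_mod_nat k, hPR,
      ← hR'.map_mod_nat k, (show k % r = 0 % r from hk2)]
    simp
  have hRc : ∀ l, R l = R 0 := fun l => by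
    have h1 := hPR l
    rw [hconst l] at h1
    exact (neg_injective h1).symm
  have hR0 : R 0 = 0 := by
    rw [sum_congr rfl fun l _ => hRc l, sum_const, card_range, nsmul_eq_mul] at hsum
    rcases mul_eq_zero.1 hsum with h4 | h4
    · exfalso
      have : (r : ℂ) ≠ 0 := Nat.cast_ne_zero.2 hr.ne'
      exact this h4
    · exact h4
  refine ⟨fun l => ?_, fun l => ?_, rfl⟩
  · rw [hconst, hR0, neg_zero]
  · rw [hRc, hR0]

/-- The coefficient space. -/
abbrev Coef (p r : ℕ) : Type := (Fin p → ℂ) × (Fin r → ℂ) × ℂ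

/-- The value at `y + l δ`. -/
noncomputable def val (p r : ℕ) [NeZero p] [NeZero r] (δ y : ℝ) (w : Coef p r) (l : ℕ) : ℂ :=
  w.1 (Fin.ofNat p l) + w.2.1 (Fin.ofNat r l) + ((y + l * δ : ℝ) : ℂ) * w.2.2

variable {p r : ℕ} [NeZero p] [NeZero r]

lemma ofNat_add_self (n l : ℕ) [NeZero n] : Fin.ofNat n (l + n) = Fin.ofNat n l := by
  ext; simp

lemma val_injective (hpr : Nat.Coprime p r) {δ : ℝ} (hδ : δ ≠ 0) (y : ℝ) (w : Coef p r)
    (hsum : ∑ j, w.2.1 j = 0) (h0 : ∀ l < p + r, val p r δ y w l = 0) : w = 0 := by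
  have hp : 0 < p := Nat.pos_of_ne_zero (NeZero.ne p)
  have hr : 0 < r := Nat.pos_of_ne_zero (NeZero.ne r)
  obtain ⟨h1, h2, h3⟩ := injective_aux hp hr hpr hδ y (fun l => w.1 (Fin.ofNat p l))
    (fun l => w.2.1 (Fin.ofNat r l)) w.2.2 (fun l => by simp only [ofNat_add_self])
    (fun l => by simp only [ofNat_add_self]) (by
      rw [← hsum, ← Fin.sum_univ_eq_sum_range (fun l => w.2.1 (Fin.ofNat r l))]
      refine sum_congr rfl fun j _ => ?_
      rw [show Fin.ofNat r (j : ℕ) = j by ext; simp]) h0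
  refine Prod.ext ?_ (Prod.ext ?_ h3)
  · funext j
    have := h1 j
    rwa [show Fin.ofNat p (j : ℕ) = j by ext; simp] at this
  · funext j
    have := h2 j
    rwa [show Fin.ofNat r (j : ℕ) = j by ext; simp] at this

/-- The squared norm of the coefficients. -/
noncomputable def nsq (w : Coef p r) : ℝ := ∑ j, ‖w.1 j‖ ^ 2 + ∑ j, ‖w.2.1 j‖ ^ 2 + ‖w.2.2‖ ^ 2

omit [NeZero p] [NeZero r] in
lemma nsq_le (w : Coef p r) : nsq w ≤ (p + r + 1) * ‖w‖ ^ 2 := by
  have h1 : ∀ j, ‖w.1 j‖ ^ 2 ≤ ‖w‖ ^ 2 := fun j =>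
    pow_le_pow_left₀ (norm_nonneg _) ((norm_le_pi_norm w.1 j).trans (norm_fst_le w)) 2
  have h2 : ∀ j, ‖w.2.1 j‖ ^ 2 ≤ ‖w‖ ^ 2 := fun j =>
    pow_le_pow_left₀ (norm_nonneg _)
      (((norm_le_pi_norm w.2.1 j).trans (norm_fst_le w.2)).trans (norm_snd_le w)) 2
  have h3 : ‖w.2.2‖ ^ 2 ≤ ‖w‖ ^ 2 :=
    pow_le_pow_left₀ (norm_nonneg _) ((norm_snd_le w.2).trans (norm_snd_le w)) 2
  have e1 := sum_le_sum fun j (_ : j ∈ (univ : Finset (Fin p))) => h1 j
  have e2 := sum_le_sum fun j (_ : j ∈ (univ : Finset (Fin r))) => h2 j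
  simp only [sum_const, card_univ, Fintype.card_fin, nsmul_eq_mul] at e1 e2
  unfold nsq
  linarith

lemma val_smul (δ y : ℝ) (w : Coef p r) (z : ℂ) (l : ℕ) :
    val p r δ y (z • w) l = z * val p r δ y w l := by
  simp only [val, Prod.smul_fst, Prod.smul_snd, Pi.smul_apply, smul_eq_mul]
  ring

lemma exists_lower (hpr : Nat.Coprime p r) {δ : ℝ} (hδ : δ ≠ 0) (α β : ℝ) (hαβ : α ≤ β) :
    ∃ m : ℝ, 0 < m ∧ ∀ y ∈ Set.Icc α β, ∀ w : Coef p r, ∑ j, w.2.1 j = 0 →
      m * nsq w ≤ ∑ l ∈ range (p + r), ‖val p r δ y w l‖ ^ 2 := by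
  set K : Set (ℝ × Coef p r) :=
    Set.Icc α β ×ˢ (Metric.sphere (0 : Coef p r) 1 ∩ {w | ∑ j, w.2.1 j = 0}) with hK
  have hKc : IsCompact K := by
    refine isCompact_Icc.prod ((isCompact_sphere _ _).inter_right ?_)
    exact isClosed_eq (by fun_prop) continuous_const
  set Φ : ℝ × Coef p r → ℝ := fun x => ∑ l ∈ range (p + r), ‖val p r δ x.1 x.2 l‖ ^ 2 with hΦ
  have hΦc : Continuous Φ := by
    unfold Φ val
    fun_prop
  have hpos : ∀ x ∈ K, 0 < Φ x := by
    rintro ⟨y, w⟩ ⟨-, hw1, hw2⟩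
    refine lt_of_le_of_ne (sum_nonneg fun l _ => by positivity) fun h => ?_
    have h0 : ∀ l < p + r, val p r δ y w l = 0 := by
      intro l hl
      have := (sum_eq_zero_iff_of_nonneg fun l _ => by positivity).1 h.symm l (mem_range.2 hl)
      simpa using this
    have := val_injective hpr hδ y w hw2 h0
    rw [mem_sphere_zero_iff_norm, this, norm_zero] at hw1
    exact zero_ne_one hw1
  by_cases hne : K.Nonempty
  · obtain ⟨x0, hx0, hmin⟩ := hKc.exists_isMinOn hne hΦc.continuousOn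
    refine ⟨Φ x0 / (p + r + 1), by have := hpos x0 hx0; positivity, ?_⟩
    intro y hy w hw
    by_cases hw0 : w = 0
    · subst hw0
      have : nsq (0 : Coef p r) = 0 := by simp [nsq]
      rw [this, mul_zero]
      exact sum_nonneg fun l _ => by positivity
    · have hn : 0 < ‖w‖ := norm_pos_iff.2 hw0
      have hmem : (y, ((‖w‖⁻¹ : ℝ) : ℂ) • w) ∈ K := by
        refine ⟨hy, ?_, ?_⟩
        · rw [mem_sphere_zero_iff_norm, norm_smul]
          simp [hn.ne']
        · change ∑ j, (((‖w‖⁻¹ : ℝ) : ℂ) • w).2.1 j = 0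
          simp only [Prod.smul_snd, Prod.smul_fst, Pi.smul_apply, smul_eq_mul]
          rw [← mul_sum, hw, mul_zero]
      have h1 := hmin hmem
      have h2 : Φ (y, ((‖w‖⁻¹ : ℝ) : ℂ) • w) =
          (‖w‖⁻¹) ^ 2 * ∑ l ∈ range (p + r), ‖val p r δ y w l‖ ^ 2 := by
        simp only [hΦ, val_smul, norm_mul, mul_pow, mul_sum]
        refine sum_congr rfl fun l _ => ?_
        simp
      have h1' : Φ x0 ≤ (‖w‖⁻¹) ^ 2 * ∑ l ∈ range (p + r), ‖val p r δ y w l‖ ^ 2 := h2 ▸ h1
      have h3 : Φ x0 * ‖w‖ ^ 2 ≤ ∑ l ∈ range (p + r), ‖val p r δ y w l‖ ^ 2 := by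
        have := mul_le_mul_of_nonneg_right h1' (sq_nonneg ‖w‖)
        refine this.trans (le_of_eq ?_)
        field_simp
      calc Φ x0 / (p + r + 1) * nsq w ≤ Φ x0 / (p + r + 1) * ((p + r + 1) * ‖w‖ ^ 2) := by
            have := hpos x0 hx0
            exact mul_le_mul_of_nonneg_left (nsq_le w) (by positivity)
        _ = Φ x0 * ‖w‖ ^ 2 := by field_simp
        _ ≤ _ := h3
  · exfalso
    apply hne
    refine ⟨(α, ((‖((fun _ => 1, fun _ => 0, 0) : Coef p r)‖⁻¹ : ℝ) : ℂ) •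
      (fun _ => 1, fun _ => 0, 0)), ⟨le_rfl, hαβ⟩, ?_, ?_⟩
    · have : (fun _ => 1, fun _ => 0, 0) ≠ (0 : Coef p r) := by
        intro h
        have := congrFun (congrArg Prod.fst h) (Fin.ofNat p 0)
        simp at this
      rw [mem_sphere_zero_iff_norm, norm_smul]
      have hn := norm_pos_iff.2 this
      simp only [Complex.norm_real, norm_inv, norm_norm]
      exact inv_mul_cancel₀ hn.ne'
    · simp

lemma exists_upper (δ α β : ℝ) :
    ∃ M : ℝ, ∀ y ∈ Set.Icc α β, ∀ w : Coef p r,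
      ∑ l ∈ range (p + r), ‖val p r δ y w l‖ ^ 2 ≤ M * nsq w := by
  set C : ℝ := |α| + |β| + (p + r) * |δ| with hC
  have hC0 : 0 ≤ C := by positivity
  refine ⟨(p + r : ℕ) * (3 * (1 + 1 + C ^ 2)), ?_⟩
  intro y hy w
  have key : ∀ l ∈ range (p + r), ‖val p r δ y w l‖ ^ 2 ≤ 3 * (1 + 1 + C ^ 2) * nsq w := by
    intro l hl
    have hl' : (l : ℝ) ≤ p + r := by exact_mod_cast (mem_range.1 hl).le
    have h1 : ‖w.1 (Fin.ofNat p l)‖ ^ 2 ≤ nsq w := by
      have := single_le_sum (f := fun j => ‖w.1 j‖ ^ 2) (fun j _ => by positivity)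
        (mem_univ (Fin.ofNat p l))
      have h2 : 0 ≤ ∑ j, ‖w.2.1 j‖ ^ 2 := sum_nonneg fun j _ => by positivity
      unfold nsq
      have h3 := sq_nonneg ‖w.2.2‖
      linarith
    have h2 : ‖w.2.1 (Fin.ofNat r l)‖ ^ 2 ≤ nsq w := by
      have := single_le_sum (f := fun j => ‖w.2.1 j‖ ^ 2) (fun j _ => by positivity)
        (mem_univ (Fin.ofNat r l))
      have h2 : 0 ≤ ∑ j, ‖w.1 j‖ ^ 2 := sum_nonneg fun j _ => by positivity
      unfold nsq
      have h3 := sq_nonneg ‖w.2.2‖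
      linarith
    have h3 : ‖w.2.2‖ ^ 2 ≤ nsq w := by
      have h2 : 0 ≤ ∑ j, ‖w.1 j‖ ^ 2 := sum_nonneg fun j _ => by positivity
      have h3 : 0 ≤ ∑ j, ‖w.2.1 j‖ ^ 2 := sum_nonneg fun j _ => by positivity
      unfold nsq
      linarith
    have h4 : |y + l * δ| ≤ C := by
      have hy1 : |y| ≤ |α| + |β| := by
        rw [abs_le]
        constructor
        · have := neg_abs_le α; have := abs_nonneg β; linarith [hy.1]
        · have := le_abs_self β; have := abs_nonneg α; linarith [hy.2]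
      calc |y + l * δ| ≤ |y| + |(l : ℝ) * δ| := abs_add_le _ _
        _ = |y| + l * |δ| := by rw [abs_mul, Nat.abs_cast]
        _ ≤ C := by
          rw [hC]
          have := mul_le_mul_of_nonneg_right hl' (abs_nonneg δ)
          linarith
    have h5 : ‖val p r δ y w l‖ ≤
        ‖w.1 (Fin.ofNat p l)‖ + ‖w.2.1 (Fin.ofNat r l)‖ + C * ‖w.2.2‖ := by
      unfold val
      refine (norm_add_le _ _).trans (add_le_add (norm_add_le _ _) ?_)
      rw [norm_mul, Complex.norm_real, Real.norm_eq_abs]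
      exact mul_le_mul_of_nonneg_right h4 (norm_nonneg _)
    have h6 := pow_le_pow_left₀ (norm_nonneg _) h5 2
    refine h6.trans ?_
    have h7 : (‖w.1 (Fin.ofNat p l)‖ + ‖w.2.1 (Fin.ofNat r l)‖ + C * ‖w.2.2‖) ^ 2 ≤
        3 * (‖w.1 (Fin.ofNat p l)‖ ^ 2 + ‖w.2.1 (Fin.ofNat r l)‖ ^ 2 + (C * ‖w.2.2‖) ^ 2) := by
      nlinarith [sq_nonneg (‖w.1 (Fin.ofNat p l)‖ - ‖w.2.1 (Fin.ofNat r l)‖),
        sq_nonneg (‖w.1 (Fin.ofNat p l)‖ - C * ‖w.2.2‖),
        sq_nonneg (‖w.2.1 (Fin.ofNat r l)‖ - C * ‖w.2.2‖)]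
    refine h7.trans ?_
    rw [mul_pow]
    nlinarith [mul_le_mul_of_nonneg_left h3 (sq_nonneg C)]
  refine (sum_le_sum key).trans (le_of_eq ?_)
  rw [sum_const, card_range, nsmul_eq_mul]
  ring

/-- The linear map used to count dimensions. -/
noncomputable def valMap (p r : ℕ) [NeZero p] [NeZero r] (δ y : ℝ) :
    Coef p r →ₗ[ℂ] (Fin (p + r) → ℂ) × ℂ where
  toFun w := (fun l => val p r δ y w l, ∑ j, w.2.1 j)
  map_add' v w := by
    refine Prod.ext ?_ ?_
    · funext l
      simp only [val, Prod.fst_add, Prod.snd_add, Pi.add_apply]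
      ring
    · simp [sum_add_distrib]
  map_smul' z w := by
    refine Prod.ext ?_ ?_
    · funext l
      simp only [val_smul, RingHom.id_apply, Prod.smul_fst, Pi.smul_apply, smul_eq_mul]
    · simp [mul_sum]

lemma valMap_surjective (hpr : Nat.Coprime p r) {δ : ℝ} (hδ : δ ≠ 0) (y : ℝ) :
    Function.Surjective (valMap p r δ y) := by
  have hinj : Function.Injective (valMap p r δ y) := by
    rw [← LinearMap.ker_eq_bot, LinearMap.ker_eq_bot']
    intro w hw
    have h1 := congrArg Prod.fst hw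
    have h2 := congrArg Prod.snd hw
    refine val_injective hpr hδ y w h2 fun l hl => ?_
    exact congrFun h1 ⟨l, hl⟩
  refine (LinearMap.injective_iff_surjective_of_finrank_eq_finrank ?_).1 hinj
  simp only [Module.finrank_prod, Module.finrank_fintype_fun_eq_card, Fintype.card_fin,
    Module.finrank_self]
  ring

lemma eq_zero_of_folds (hpr : Nat.Coprime p r) {δ : ℝ} (hδ : δ ≠ 0) (y : ℝ) (F : ℕ → ℂ)
    (h1 : ∀ j : Fin p, ∑ l ∈ (range (p + r)).filter (fun l => Fin.ofNat p l = j), F l = 0)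
    (h2 : ∀ j : Fin r, ∑ l ∈ (range (p + r)).filter (fun l => Fin.ofNat r l = j), F l = 0)
    (h3 : ∑ l ∈ range (p + r), ((y + l * δ : ℝ) : ℂ) * F l = 0) :
    ∀ l < p + r, F l = 0 := by
  obtain ⟨w, hw⟩ := valMap_surjective hpr hδ y (fun l => (starRingEnd ℂ) (F l), 0)
  have hval : ∀ l < p + r, val p r δ y w l = (starRingEnd ℂ) (F l) := fun l hl =>
    congrFun (congrArg Prod.fst hw) ⟨l, hl⟩
  have key : ∑ l ∈ range (p + r), F l * val p r δ y w l = 0 := by
    have e : ∀ l, F l * val p r δ y w l = w.1 (Fin.ofNat p l) * F l +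
        w.2.1 (Fin.ofNat r l) * F l + w.2.2 * (((y + l * δ : ℝ) : ℂ) * F l) := by
      intro l
      unfold val
      ring
    rw [sum_congr rfl fun l _ => e l, sum_add_distrib, sum_add_distrib, ← mul_sum, h3, mul_zero,
      add_zero]
    have e1 : ∑ l ∈ range (p + r), w.1 (Fin.ofNat p l) * F l = 0 := by
      rw [← sum_fiberwise_of_maps_to (t := univ) (g := fun l => Fin.ofNat p l)
        (fun l _ => mem_univ _)]
      refine sum_eq_zero fun j _ => ?_
      have : ∀ l ∈ (range (p + r)).filter (fun l => Fin.ofNat p l = j),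
          w.1 (Fin.ofNat p l) * F l = w.1 j * F l := by
        intro l hl
        rw [(mem_filter.1 hl).2]
      rw [sum_congr rfl this, ← mul_sum, h1 j, mul_zero]
    have e2 : ∑ l ∈ range (p + r), w.2.1 (Fin.ofNat r l) * F l = 0 := by
      rw [← sum_fiberwise_of_maps_to (t := univ) (g := fun l => Fin.ofNat r l)
        (fun l _ => mem_univ _)]
      refine sum_eq_zero fun j _ => ?_
      have : ∀ l ∈ (range (p + r)).filter (fun l => Fin.ofNat r l = j),
          w.2.1 (Fin.ofNat r l) * F l = w.2.1 j * F l := by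
        intro l hl
        rw [(mem_filter.1 hl).2]
      rw [sum_congr rfl this, ← mul_sum, h2 j, mul_zero]
    rw [e1, e2, add_zero]
  have key2 : ∑ l ∈ range (p + r), ‖F l‖ ^ 2 = 0 := by
    have : ((∑ l ∈ range (p + r), ‖F l‖ ^ 2 : ℝ) : ℂ) = 0 := by
      rw [← key]
      push_cast
      refine sum_congr rfl fun l hl => ?_
      rw [hval l (mem_range.1 hl), Complex.mul_conj']
    exact_mod_cast this
  intro l hl
  have := (sum_eq_zero_iff_of_nonneg fun l _ => by positivity).1 key2 l (mem_range.2 hl)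
  simpa using this

end Pool.Agent.Restart
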