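import Pool.Agent.Restart.Ode
import Pool.Agent.Restart.Bounds

/-!
The root subspaces are spanned by the root vectors.
-/

set_option linter.unusedSectionVars false

namespace Pool.Agent.Restart

open Finset MeasureTheory Real

lemma cond_of_real {a k α β γ : ℝ} (h1 : β * Real.sin (k * (π / 2)) = 0)
    (h2 : α * (Real.cos (k * (π / 2)) - Real.cos (k * (a * (π / 2)))) =
      β * Real.sin (k * (a * (π / 2)))) (h3 : γ * Real.sin (k * (π / 2)) = 0)
    (h4 : γ * (Real.cos (k * (π / 2)) - Real.cos (k * (a * (π / 2)))) = 0) :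
    Cond a k α β γ :=
  ⟨by exact_mod_cast h1, by exact_mod_cast h2, by exact_mod_cast h3, by exact_mod_cast h4⟩

section general

variable {a : ℝ} {k α β γ : ℂ}

lemma cond_bc (h : Cond a k α β γ) : S k α β γ (-(π / 2)) = S k α β γ (a * (π / 2)) ∧
    S k α β γ (a * (π / 2)) = S k α β γ (π / 2) := by
  obtain ⟨C1, C2, C3, C4⟩ := h
  have hsc := Complex.sin_sq_add_cos_sq (k * (π / 2 : ℝ))
  have hsc' := Complex.sin_sq_add_cos_sq (k * (a * (π / 2) : ℝ))
  have h5 : γ * Complex.sin (k * (a * (π / 2) : ℝ)) = 0 := by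
    by_cases hγ : γ = 0
    · rw [hγ, zero_mul]
    · have h1 := (mul_eq_zero.1 C3).resolve_left hγ
      have h2 := sub_eq_zero.1 ((mul_eq_zero.1 C4).resolve_left hγ)
      have h3 : Complex.sin (k * (a * (π / 2) : ℝ)) ^ 2 = 0 := by
        rw [← h2] at hsc'
        rw [h1] at hsc
        linear_combination hsc' - hsc
      rw [pow_eq_zero_iff two_ne_zero |>.1 h3, mul_zero]
  unfold S
  rw [Complex.ofReal_neg, mul_neg, Complex.cos_neg, Complex.sin_neg]
  constructor
  · linear_combination C2 - C1 + (π / 2 : ℝ) * C3 - (a * (π / 2) : ℝ) * h5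
  · linear_combination -C2 - C1 - (π / 2 : ℝ) * C3 + (a * (π / 2) : ℝ) * h5

lemma isImage_S (h : Cond a k α β γ) :
    IsImage a (toSp (S k α β γ) (S_continuous _ _ _ _))
      (toSp (fun x => k ^ 2 * S k α β γ x + S k (-(2 * k * γ)) 0 0 x)
        (((S_continuous _ _ _ _).const_smul (k ^ 2)).add (S_continuous _ _ _ _))) := by
  obtain ⟨b1, b2⟩ := cond_bc h
  refine isImage_of_smooth (v := fun x => -(k * α) * Complex.sin (k * x) +
    k * β * Complex.cos (k * x) + γ * (Complex.sin (k * x) + x * (k * Complex.cos (k * x))))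
    _ _ (fun x => ?_) (fun x => ?_) b1 b2
  · have := (((hasDerivAt_ccos k x).const_mul α).add ((hasDerivAt_csin k x).const_mul β)).add
      (((hasDerivAt_coe x).mul (hasDerivAt_csin k x)).const_mul γ)
    refine this.congr_deriv ?_
    ring
  · have := (((hasDerivAt_csin k x).const_mul (-(k * α))).add
      ((hasDerivAt_ccos k x).const_mul (k * β))).add
      (((hasDerivAt_csin k x).add
        ((hasDerivAt_coe x).mul ((hasDerivAt_ccos k x).const_mul k))).const_mul γ)
    refine this.congr_deriv ?_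
    unfold S
    ring

lemma toSp_sub_smul {u v w : ℝ → ℂ} (hu : Continuous u) (hv : Continuous v) (hw : Continuous w)
    (c : ℂ) (h : ∀ x, u x - c * v x = w x) : toSp u hu - c • toSp v hv = toSp w hw := by
  refine Lp.ext ?_
  filter_upwards [Lp.coeFn_sub (toSp u hu) (c • toSp v hv), Lp.coeFn_smul c (toSp v hv),
    toSp_ae u hu, toSp_ae v hv, toSp_ae w hw] with x h1 h2 h3 h4 h5
  rw [h1, Pi.sub_apply, h2, Pi.smul_apply, h3, h4, h5, smul_eq_mul, h x]

lemma toSp_zero {u : ℝ → ℂ} (hu : Continuous u) (h : ∀ x, u x = 0) : toSp u hu = 0 := by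
  refine Lp.ext ?_
  filter_upwards [toSp_ae u hu, Lp.coeFn_zero (E := ℂ) (p := 2)
    ((volume : Measure ℝ).restrict I)] with x h1 h2
  rw [h1, h2, h x]
  rfl

lemma toSp_add {u v w : ℝ → ℂ} (hu : Continuous u) (hv : Continuous v) (hw : Continuous w)
    (h : ∀ x, u x + v x = w x) : toSp u hu + toSp v hv = toSp w hw := by
  refine Lp.ext ?_
  filter_upwards [Lp.coeFn_add (toSp u hu) (toSp v hv),
    toSp_ae u hu, toSp_ae v hv, toSp_ae w hw] with x h1 h3 h4 h5
  rw [h1, Pi.add_apply, h3, h4, h5, h x]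

lemma toSp_smul {u w : ℝ → ℂ} (hu : Continuous u) (hw : Continuous w) (c : ℂ)
    (h : ∀ x, c * u x = w x) : c • toSp u hu = toSp w hw := by
  refine Lp.ext ?_
  filter_upwards [Lp.coeFn_smul c (toSp u hu),
    toSp_ae u hu, toSp_ae w hw] with x h1 h3 h4
  rw [h1, Pi.smul_apply, h3, h4, ← h x, smul_eq_mul]

lemma cond_cos (h : Cond a k α β γ) : Cond a k (-(2 * k * γ)) 0 0 := by
  obtain ⟨C1, C2, C3, C4⟩ := h
  refine ⟨zero_mul _, ?_, zero_mul _, zero_mul _⟩
  linear_combination (-(2 * k)) * C4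

lemma isRoot_S (h : Cond a k α β γ) :
    IsRoot a (k ^ 2) 2 (toSp (S k α β γ) (S_continuous _ _ _ _)) := by
  refine ⟨_, isImage_S h, ?_⟩
  rw [toSp_sub_smul _ _ (S_continuous k (-(2 * k * γ)) 0 0) _ (fun x => by ring)]
  refine ⟨_, isImage_S (cond_cos h), ?_⟩
  rw [toSp_sub_smul _ _ (continuous_const (y := (0 : ℂ))) _ (fun x => by unfold S; ring)]
  exact toSp_zero _ fun _ => rfl

end general

variable (p r : ℕ) [NeZero p] [NeZero r]

lemma vec_eq_four (n : ℕ) :
    Cond (par p r) (freq p r (.inr (.inr (.inr n))) : ℝ) (corr p r (n + 1) : ℝ) 1 0 ∧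
    vec p r (.inr (.inr (.inr n))) = toSp (S (freq p r (.inr (.inr (.inr n))) : ℝ)
      (corr p r (n + 1) : ℝ) 1 0) (S_continuous _ _ _ _) := by
  obtain ⟨hp, hr⟩ := hpos (p := p) (r := r)
  have e1 : freq p r (.inr (.inr (.inr n))) * (π / 2) = (n + 1 : ℕ) * π := by
    simp only [freq]
    push_cast
    ring
  have e2 : freq p r (.inr (.inr (.inr n))) * (par p r * (π / 2)) =
      (n + 1 : ℕ) * par p r * π := by
    simp only [freq]
    push_cast
    ring
  have key : Cond (par p r) (freq p r (.inr (.inr (.inr n))) : ℝ) (corr p r (n + 1) : ℝ)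
      (1 : ℝ) (0 : ℝ) := by
    refine cond_of_real ?_ ?_ (by simp) (by simp)
    · rw [e1, Real.sin_nat_mul_pi, mul_zero]
    · rw [e1, e2, Real.cos_nat_mul_pi, one_mul, corr]
      by_cases hd : (-1 : ℝ) ^ (n + 1) - Real.cos ((n + 1 : ℕ) * par p r * π) = 0
      · rw [hd, div_zero, zero_mul]
        have h1 := Real.sin_sq_add_cos_sq ((n + 1 : ℕ) * par p r * π)
        rw [← sub_eq_zero.1 hd, ← pow_mul, mul_comm (n + 1) 2, pow_mul] at h1
        norm_num at h1
        exact_mod_cast h1.symm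
      · rw [div_mul_cancel₀ _ hd]
  refine ⟨by exact_mod_cast key, ?_⟩
  unfold vec
  congr 1
  funext x
  simp only [fn, S, freq]
  push_cast
  ring

lemma vec_eq (i : Idx r) : ∃ α β γ : ℂ, Cond (par p r) (freq p r i : ℝ) α β γ ∧
    vec p r i = toSp (S (freq p r i : ℝ) α β γ) (S_continuous _ _ _ _) := by
  obtain ⟨hp, hr⟩ := hpos (p := p) (r := r)
  rcases i with n | n | n | n
  · refine ⟨(1 : ℝ), (0 : ℝ), (0 : ℝ), cond_of_real (by simp) ?_ (by simp) (by simp), ?_⟩
    · have e : freq p r (.inl n) * (par p r * (π / 2)) =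
          n * (2 * π) - freq p r (.inl n) * (π / 2) := by
        simp only [freq, par]
        field_simp
        ring
      rw [e, Real.cos_nat_mul_two_pi_sub]
      ring
    · unfold vec
      congr 1
      funext x
      simp only [fn, S, freq]
      push_cast
      ring
  · refine ⟨(1 : ℝ), (0 : ℝ), (0 : ℝ), cond_of_real (by simp) ?_ (by simp) (by simp), ?_⟩
    · have e : freq p r (.inr (.inl n)) * (par p r * (π / 2)) =
          freq p r (.inr (.inl n)) * (π / 2) - (n : ℕ) * (2 * π) := by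
        simp only [freq, par]
        field_simp
        ring
      rw [e, Real.cos_sub_nat_mul_two_pi]
      ring
    · unfold vec
      congr 1
      funext x
      simp only [fn, S, freq]
      push_cast
      ring
  · have e1 : freq p r (.inr (.inr (.inl n))) * (π / 2) = ((n + 1) * (p + r) : ℕ) * π := by
      simp only [freq]
      push_cast
      ring
    have e2 : freq p r (.inr (.inr (.inl n))) * (par p r * (π / 2)) =
        freq p r (.inr (.inr (.inl n))) * (π / 2) - ((n + 1) * r : ℕ) * (2 * π) := by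
      simp only [freq, par]
      push_cast
      field_simp
      ring
    refine ⟨(0 : ℝ), (0 : ℝ), (1 : ℝ), cond_of_real (by simp) (by simp) ?_ ?_, ?_⟩
    · rw [e1, Real.sin_nat_mul_pi, mul_zero]
    · rw [e2, Real.cos_sub_nat_mul_two_pi]
      ring
    · unfold vec
      congr 1
      funext x
      simp only [fn, S, freq]
      push_cast
      ring
  · exact ⟨_, _, _, vec_eq_four p r n⟩

/-- The span of the root vectors for a given eigenvalue. -/
noncomputable def V (z : ℂ) : Submodule ℂ Space :=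
  Submodule.span ℂ (vec p r '' {i | ((freq p r i : ℝ) : ℂ) ^ 2 = z})

lemma vec_mem_V {i : Idx r} {k : ℂ} (h : k = (freq p r i : ℝ) ∨ k = -(freq p r i : ℝ)) :
    vec p r i ∈ V p r (k ^ 2) := by
  refine Submodule.subset_span ⟨i, ?_, rfl⟩
  rcases h with rfl | rfl
  · rfl
  · simp

lemma S_neg (k α β γ : ℂ) (x : ℝ) : S (-k) α β γ x = S k α (-β) (-γ) x := by
  unfold S
  rw [neg_mul, Complex.cos_neg, Complex.sin_neg]
  ring

lemma cond_neg {a : ℝ} {k α β γ : ℂ} (h : Cond a (-k) α β γ) : Cond a k α (-β) (-γ) := by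
  obtain ⟨C1, C2, C3, C4⟩ := h
  simp only [neg_mul, Complex.cos_neg, Complex.sin_neg] at C1 C2 C3 C4
  refine ⟨?_, ?_, ?_, ?_⟩
  · linear_combination C1
  · linear_combination C2
  · linear_combination C3
  · linear_combination -C4

lemma V_form (k : ℂ) {f : Space} (hf : f ∈ V p r (k ^ 2)) :
    ∃ α β γ : ℂ, Cond (par p r) k α β γ ∧ f = toSp (S k α β γ) (S_continuous _ _ _ _) := by
  induction hf using Submodule.span_induction with
  | mem x hx =>
    obtain ⟨i, hi, rfl⟩ := hx
    obtain ⟨α, β, γ, h1, h2⟩ := vec_eq p r i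
    rcases sq_eq_sq_iff_eq_or_eq_neg.1 hi with h | h
    · rw [h] at h1
      refine ⟨α, β, γ, h1, ?_⟩
      rw [h2]
      congr 1
      rw [h]
    · rw [h] at h1
      refine ⟨α, -β, -γ, cond_neg h1, ?_⟩
      rw [h2]
      congr 1
      funext x
      rw [h, S_neg]
  | zero =>
    refine ⟨0, 0, 0, ⟨by simp, by simp, by simp, by simp⟩, ?_⟩
    rw [toSp_zero]
    intro x
    simp [S]
  | add f g _ _ hf hg =>
    obtain ⟨α, β, γ, ⟨C1, C2, C3, C4⟩, rfl⟩ := hf
    obtain ⟨α', β', γ', ⟨C1', C2', C3', C4'⟩, rfl⟩ := hg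
    refine ⟨α + α', β + β', γ + γ', ⟨?_, ?_, ?_, ?_⟩, toSp_add _ _ _ fun x => by unfold S; ring⟩
    · linear_combination C1 + C1'
    · linear_combination C2 + C2'
    · linear_combination C3 + C3'
    · linear_combination C4 + C4'
  | smul c f _ hf =>
    obtain ⟨α, β, γ, ⟨C1, C2, C3, C4⟩, rfl⟩ := hf
    refine ⟨c * α, c * β, c * γ, ⟨?_, ?_, ?_, ?_⟩, toSp_smul _ _ _ fun x => by unfold S; ring⟩
    · linear_combination c * C1
    · linear_combination c * C2
    · linear_combination c * C3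
    · linear_combination c * C4

lemma cos_eq_form {k : ℂ} (h : Complex.cos (k * (π / 2 : ℝ)) =
    Complex.cos (k * (par p r * (π / 2) : ℝ))) :
    ∃ j : ℤ, k = ((j * (2 * (p + r) / p) : ℝ) : ℂ) ∨ k = ((j * (2 * (p + r) / r) : ℝ) : ℂ) := by
  obtain ⟨hp, hr⟩ := hpos (p := p) (r := r)
  have hpc : (p : ℂ) ≠ 0 := by exact_mod_cast hp.ne'
  have hrc : (r : ℂ) ≠ 0 := by exact_mod_cast hr.ne'
  have hprc : (p : ℂ) + r ≠ 0 := by exact_mod_cast (by positivity : (p : ℝ) + r ≠ 0)
  have hpi : (π : ℂ) ≠ 0 := by exact_mod_cast Real.pi_pos.ne'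
  obtain ⟨j, hj | hj⟩ := Complex.cos_eq_cos_iff.1 h
  · refine ⟨-j, .inr ?_⟩
    simp only [par] at hj
    push_cast at hj ⊢
    field_simp at hj ⊢
    linear_combination (-1 / 2) * hj
  · refine ⟨j, .inl ?_⟩
    simp only [par] at hj
    push_cast at hj ⊢
    field_simp at hj ⊢
    linear_combination (1 / 2) * hj

lemma cos_mem {k : ℂ} (h : Complex.cos (k * (π / 2 : ℝ)) =
    Complex.cos (k * (par p r * (π / 2) : ℝ))) :
    toSp (S k 1 0 0) (S_continuous _ _ _ _) ∈ V p r (k ^ 2) := by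
  obtain ⟨hp, hr⟩ := hpos (p := p) (r := r)
  -- the two families of cosines
  have P1 : ∀ (m : ℕ) (k : ℂ), (k = ((m * (2 * (p + r) / p) : ℝ) : ℂ) ∨
      k = -((m * (2 * (p + r) / p) : ℝ) : ℂ)) →
      toSp (S k 1 0 0) (S_continuous _ _ _ _) ∈ V p r (k ^ 2) := by
    intro m k hk
    have h1 : vec p r (.inl m) ∈ V p r (k ^ 2) := vec_mem_V p r hk
    convert h1 using 1
    unfold vec
    congr 1
    funext x
    rcases hk with rfl | rfl
    · simp only [fn, S]
      push_cast
      ring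
    · simp only [fn, S_neg]
      simp only [S]
      push_cast
      ring
  have P2 : ∀ (m : ℕ) (k : ℂ), (k = ((m * (2 * (p + r) / r) : ℝ) : ℂ) ∨
      k = -((m * (2 * (p + r) / r) : ℝ) : ℂ)) →
      toSp (S k 1 0 0) (S_continuous _ _ _ _) ∈ V p r (k ^ 2) := by
    intro m k hk
    by_cases hm : r ∣ m
    · obtain ⟨t, rfl⟩ := hm
      have e : (((r * t : ℕ) : ℝ) * (2 * (p + r) / r) : ℝ) = ((p * t : ℕ) : ℝ) * (2 * (p + r) / p) := by
        push_cast
        field_simp
      rw [e] at hk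
      exact P1 _ _ hk
    · have h1 : vec p r (.inr (.inl ⟨m, hm⟩)) ∈ V p r (k ^ 2) := vec_mem_V p r hk
      convert h1 using 1
      unfold vec
      congr 1
      funext x
      rcases hk with rfl | rfl
      · simp only [fn, S]
        push_cast
        ring
      · simp only [fn, S_neg]
        simp only [S]
        push_cast
        ring
  obtain ⟨j, hj | hj⟩ := cos_eq_form p r h
  · obtain ⟨m, rfl | rfl⟩ := j.eq_nat_or_neg
    · exact P1 m k (.inl (by rw [hj]; push_cast; ring))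
    · exact P1 m k (.inr (by rw [hj]; push_cast; ring))
  · obtain ⟨m, rfl | rfl⟩ := j.eq_nat_or_neg
    · exact P2 m k (.inl (by rw [hj]; push_cast; ring))
    · exact P2 m k (.inr (by rw [hj]; push_cast; ring))

lemma sin_eq_form {k : ℂ} (h : Complex.sin (k * (π / 2 : ℝ)) = 0) :
    ∃ j : ℤ, k = 2 * j := by
  have hpi : (π : ℂ) ≠ 0 := by exact_mod_cast Real.pi_pos.ne'
  obtain ⟨j, hj⟩ := Complex.sin_eq_zero_iff.1 h
  refine ⟨j, ?_⟩
  push_cast at hj
  field_simp at hj
  linear_combination hj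

lemma sin_mem {k : ℂ} (hk : k ≠ 0) (h : Complex.sin (k * (π / 2 : ℝ)) = 0) :
    ∃ A : ℂ, toSp (S k A 1 0) (S_continuous _ _ _ _) ∈ V p r (k ^ 2) ∧
      A * (Complex.cos (k * (π / 2 : ℝ)) - Complex.cos (k * (par p r * (π / 2) : ℝ))) =
        Complex.sin (k * (par p r * (π / 2) : ℝ)) := by
  obtain ⟨j, rfl⟩ := sin_eq_form h
  obtain ⟨m, rfl | rfl⟩ := j.eq_nat_or_neg
  · obtain ⟨n, rfl⟩ : ∃ n, m = n + 1 := Nat.exists_eq_succ_of_ne_zero (by
      rintro rfl
      simp at hk)
    have hf : ((freq p r (.inr (.inr (.inr n))) : ℝ) : ℂ) = 2 * ((n + 1 : ℕ) : ℤ) := by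
      simp only [freq]
      push_cast
      ring
    obtain ⟨h1, h2⟩ := vec_eq_four p r n
    have h3 := vec_mem_V p r (i := .inr (.inr (.inr n))) (.inl hf.symm)
    rw [h2] at h3
    rw [hf] at h1
    obtain ⟨-, C2, -, -⟩ := h1
    refine ⟨(corr p r (n + 1) : ℝ), ?_, ?_⟩
    · convert h3 using 3
      exact hf.symm
    · rw [C2, one_mul]
  · obtain ⟨n, rfl⟩ : ∃ n, m = n + 1 := Nat.exists_eq_succ_of_ne_zero (by
      rintro rfl
      simp at hk)
    have hf : ((freq p r (.inr (.inr (.inr n))) : ℝ) : ℂ) = -(2 * (-((n + 1 : ℕ) : ℤ) : ℤ)) := by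
      simp only [freq]
      push_cast
      ring
    obtain ⟨h1, h2⟩ := vec_eq_four p r n
    have h3 := vec_mem_V p r (i := .inr (.inr (.inr n))) (k := 2 * (-((n + 1 : ℕ) : ℤ) : ℤ))
      (.inr (by rw [hf]; ring))
    rw [h2] at h3
    rw [hf] at h1
    obtain ⟨-, C2, -, -⟩ := cond_neg h1
    refine ⟨-(corr p r (n + 1) : ℝ), ?_, ?_⟩
    · have h4 := (V p r _).smul_mem (-1) h3
      rw [toSp_smul _ (S_continuous (2 * (-((n + 1 : ℕ) : ℤ) : ℤ)) (-(corr p r (n + 1) : ℝ)) 1 0)
        (-1 : ℂ) (fun x => by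
          rw [hf, S_neg]
          unfold S
          push_cast
          ring)] at h4
      exact h4
    · push_cast
      push_cast at C2
      linear_combination -C2

lemma xsin_mem (hpr : Nat.Coprime p r) {k : ℂ} (hk : k ≠ 0)
    (hs : Complex.sin (k * (π / 2 : ℝ)) = 0)
    (hc : Complex.cos (k * (π / 2 : ℝ)) = Complex.cos (k * (par p r * (π / 2) : ℝ))) :
    toSp (S k 0 0 1) (S_continuous _ _ _ _) ∈ V p r (k ^ 2) := by
  obtain ⟨hp, hr⟩ := hpos (p := p) (r := r)
  have hpc : (p : ℂ) ≠ 0 := by exact_mod_cast hp.ne'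
  have hrc : (r : ℂ) ≠ 0 := by exact_mod_cast hr.ne'
  obtain ⟨m, rfl⟩ := sin_eq_form hs
  have hdvd : ((p + r : ℕ) : ℤ) ∣ m := by
    obtain ⟨j, hj | hj⟩ := cos_eq_form p r hc
    · have h1 : m * p = j * (p + r : ℕ) := by
        have : (m : ℂ) * p = j * (p + r : ℕ) := by
          push_cast at hj ⊢
          field_simp at hj
          linear_combination hj
        exact_mod_cast this
      have h2 : ((p + r : ℕ) : ℤ) ∣ m * p := ⟨j, by rw [h1]; ring⟩
      refine IsCoprime.dvd_of_dvd_mul_right ?_ h2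
      rw [Nat.isCoprime_iff_coprime]
      simpa using hpr.symm
    · have h1 : m * r = j * (p + r : ℕ) := by
        have : (m : ℂ) * r = j * (p + r : ℕ) := by
          push_cast at hj ⊢
          field_simp at hj
          linear_combination hj
        exact_mod_cast this
      have h2 : ((p + r : ℕ) : ℤ) ∣ m * r := ⟨j, by rw [h1]; ring⟩
      refine IsCoprime.dvd_of_dvd_mul_right ?_ h2
      rw [Nat.isCoprime_iff_coprime]
      simpa using hpr
  obtain ⟨t, rfl⟩ := hdvd
  obtain ⟨m, rfl | rfl⟩ := t.eq_nat_or_neg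
  · obtain ⟨n, rfl⟩ : ∃ n, m = n + 1 := Nat.exists_eq_succ_of_ne_zero (by
      rintro rfl
      simp at hk)
    have hf : ((freq p r (.inr (.inr (.inl n))) : ℝ) : ℂ) =
        2 * (((p + r : ℕ) * ((n + 1 : ℕ) : ℤ) : ℤ)) := by
      simp only [freq]
      push_cast
      ring
    have h3 := vec_mem_V p r (i := .inr (.inr (.inl n))) (.inl hf.symm)
    convert h3 using 1
    unfold vec
    congr 1
    funext x
    rw [← hf]
    simp only [fn, S, freq]
    push_cast
    ring
  · obtain ⟨n, rfl⟩ : ∃ n, m = n + 1 := Nat.exists_eq_succ_of_ne_zero (by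
      rintro rfl
      simp at hk)
    have hf : ((freq p r (.inr (.inr (.inl n))) : ℝ) : ℂ) =
        -(2 * (((p + r : ℕ) * -((n + 1 : ℕ) : ℤ) : ℤ))) := by
      simp only [freq]
      push_cast
      ring
    have hf' : (2 * (((p + r : ℕ) * -((n + 1 : ℕ) : ℤ) : ℤ)) : ℂ) =
      -((freq p r (.inr (.inr (.inl n))) : ℝ) : ℂ) := by rw [hf]; ring
    have h3 := vec_mem_V p r (i := .inr (.inr (.inl n))) (.inr hf')
    have h4 := (V p r _).smul_mem (-1) h3
    convert h4 using 1
    unfold vec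
    rw [toSp_smul _ (S_continuous _ _ _ _)]
    intro x
    rw [hf', S_neg]
    simp only [fn, S, freq]
    push_cast
    ring

lemma form_mem (hpr : Nat.Coprime p r) {k α β γ : ℂ} (hk : k ≠ 0) (h : Cond (par p r) k α β γ) :
    toSp (S k α β γ) (S_continuous _ _ _ _) ∈ V p r (k ^ 2) := by
  obtain ⟨C1, C2, C3, C4⟩ := h
  have m3 : γ • toSp (S k 0 0 1) (S_continuous _ _ _ _) ∈ V p r (k ^ 2) := by
    by_cases hγ : γ = 0
    · rw [hγ, zero_smul]
      exact zero_mem _
    · exact Submodule.smul_mem _ _ (xsin_mem p r hpr hk ((mul_eq_zero.1 C3).resolve_left hγ)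
        (sub_eq_zero.1 ((mul_eq_zero.1 C4).resolve_left hγ)))
  have m1 : ∀ δ : ℂ, δ * (Complex.cos (k * (π / 2 : ℝ)) -
      Complex.cos (k * (par p r * (π / 2) : ℝ))) = 0 →
      δ • toSp (S k 1 0 0) (S_continuous _ _ _ _) ∈ V p r (k ^ 2) := by
    intro δ hδ
    by_cases h0 : δ = 0
    · rw [h0, zero_smul]
      exact zero_mem _
    · exact Submodule.smul_mem _ _ (cos_mem p r
        (sub_eq_zero.1 ((mul_eq_zero.1 hδ).resolve_left h0)))
  by_cases hβ : β = 0
  · have h1 := m1 α (by rw [C2, hβ, zero_mul])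
    have := add_mem m3 h1
    rw [toSp_smul _ (S_continuous k 0 0 γ) γ (fun x => by unfold S; ring),
      toSp_smul _ (S_continuous k α 0 0) α (fun x => by unfold S; ring),
      toSp_add _ _ (S_continuous k α β γ) (fun x => by rw [hβ]; unfold S; ring)] at this
    exact this
  · obtain ⟨A, hA1, hA2⟩ := sin_mem p r hk ((mul_eq_zero.1 C1).resolve_left hβ)
    have h1 := m1 (α - β * A) (by linear_combination C2 - β * hA2)
    have := add_mem (add_mem m3 h1) (Submodule.smul_mem _ β hA1)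
    rw [toSp_smul _ (S_continuous k 0 0 γ) γ (fun x => by unfold S; ring),
      toSp_smul _ (S_continuous k (α - β * A) 0 0) (α - β * A) (fun x => by unfold S; ring),
      toSp_smul _ (S_continuous k (β * A) β 0) β (fun x => by unfold S; ring),
      toSp_add _ _ (S_continuous k (α - β * A) 0 γ) (fun x => by unfold S; ring),
      toSp_add _ _ (S_continuous k α β γ) (fun x => by unfold S; ring)] at this
    exact this

lemma freq_ne_zero {i : Idx r} (hi : i ≠ .inl 0) : freq p r i ≠ 0 := by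
  obtain ⟨hp, hr⟩ := hpos (p := p) (r := r)
  rcases i with n | n | n | n
  · have hn : (n : ℝ) ≠ 0 := by
      rintro h
      exact hi (by rw [Nat.cast_eq_zero.1 h])
    simp only [freq]
    positivity
  · have hn : ((n : ℕ) : ℝ) ≠ 0 := by
      rintro h
      exact n.2 (by rw [Nat.cast_eq_zero.1 h]; exact dvd_zero r)
    simp only [freq]
    positivity
  · simp only [freq]
    positivity
  · simp only [freq]
    positivity

lemma vec_zero : vec p r (.inl 0) = toSp (fun _ => 1) continuous_const := by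
  unfold vec
  congr 1
  funext x
  simp [fn]

lemma V_zero_form {f : Space} (hf : f ∈ V p r 0) :
    ∃ α : ℂ, f = toSp (fun _ => α) continuous_const := by
  induction hf using Submodule.span_induction with
  | mem x hx =>
    obtain ⟨i, hi, rfl⟩ := hx
    have h0 : i = .inl 0 := by
      by_contra h
      have := freq_ne_zero p r h
      have h1 : ((freq p r i : ℝ) : ℂ) ^ 2 = 0 := hi
      rw [sq_eq_zero_iff] at h1
      exact this (by exact_mod_cast h1)
    rw [h0]
    exact ⟨1, vec_zero p r⟩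
  | zero =>
    refine ⟨0, ?_⟩
    rw [toSp_zero]
    intro x
    rfl
  | add f g _ _ hf hg =>
    obtain ⟨α, rfl⟩ := hf
    obtain ⟨α', rfl⟩ := hg
    exact ⟨α + α', toSp_add _ _ _ fun x => rfl⟩
  | smul c f _ hf =>
    obtain ⟨α, rfl⟩ := hf
    exact ⟨c * α, toSp_smul _ _ _ fun x => rfl⟩

lemma V_zero_mem (α : ℂ) : toSp (fun _ => α) continuous_const ∈ V p r 0 := by
  have h : vec p r (.inl 0) ∈ V p r 0 := Submodule.subset_span ⟨_, by simp [freq], rfl⟩
  have := Submodule.smul_mem _ α h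
  rw [vec_zero, toSp_smul _ (continuous_const (y := α)) α fun x => mul_one _] at this
  exact this

lemma par_lt : -1 < par p r ∧ par p r < 1 := by
  obtain ⟨hp, hr⟩ := hpos (p := p) (r := r)
  unfold par
  constructor
  · rw [lt_div_iff₀ (by positivity)]
    linarith
  · rw [div_lt_one (by positivity)]
    linarith

lemma vec_mem_rootSub (i : Idx r) :
    vec p r i ∈ rootSub (par p r) (((freq p r i : ℝ) : ℂ) ^ 2) := by
  obtain ⟨α, β, γ, h1, h2⟩ := vec_eq p r i
  rw [h2]
  exact ⟨2, isRoot_S h1⟩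

theorem V_eq_rootSub (hpr : Nat.Coprime p r) (z : ℂ) : V p r z = rootSub (par p r) z := by
  obtain ⟨ha1, ha2⟩ := par_lt p r
  refine le_antisymm ?_ ?_
  · unfold V
    rw [Submodule.span_le]
    rintro _ ⟨i, hi, rfl⟩
    have := vec_mem_rootSub p r i
    rw [show ((freq p r i : ℝ) : ℂ) ^ 2 = z from hi] at this
    exact this
  · rintro f ⟨n, hn⟩
    induction n generalizing f with
    | zero =>
      simp only [IsRoot] at hn
      rw [hn]
      exact zero_mem _
    | succ n ih =>
      obtain ⟨g, hg1, hg2⟩ := hn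
      have h := ih hg2
      by_cases hz : z = 0
      · subst hz
        obtain ⟨α, hα⟩ := V_zero_form p r h
        obtain ⟨A, hA⟩ := step_zero ha1 ha2 hg1 hα
        rw [hA]
        exact V_zero_mem p r A
      · obtain ⟨k, rfl⟩ : ∃ k : ℂ, z = k ^ 2 := by
          obtain ⟨k, hk⟩ := IsAlgClosed.exists_pow_nat_eq z (n := 2) two_pos
          exact ⟨k, hk.symm⟩
        have hk : k ≠ 0 := by
          rintro rfl
          exact hz (by simp)
        obtain ⟨α, β, γ, hc, hα⟩ := V_form p r k h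
        obtain ⟨A, B, G, hc', hA⟩ := step ha1 ha2 hk hc hg1 hα
        rw [hA]
        exact form_mem p r hpr hk hc'

end Pool.Agent.Restart
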