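import Pool.Agent.Restart.Pointwise

/-!
Estimates for sums of periodic functions.
-/

namespace Pool.Agent.Restart

open Finset MeasureTheory

lemma split_integral {E : Type*} [NormedAddCommGroup E] [NormedSpace ℝ E] (F : ℝ → E)
    (hF : ∀ a b, IntervalIntegrable F volume a b) (α δ : ℝ) (N : ℕ) :
    ∫ x in α..(α + N * δ), F x = ∑ l ∈ range N, ∫ y in α..(α + δ), F (y + l * δ) := by
  have h := intervalIntegral.sum_integral_adjacent_intervals (f := F) (μ := volume)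
    (a := fun l : ℕ => α + l * δ) (n := N) (fun k _ => hF _ _)
  simp only [Nat.cast_zero, zero_mul, add_zero] at h
  rw [← h]
  refine sum_congr rfl fun l _ => ?_
  rw [intervalIntegral.integral_comp_add_right]
  congr 1
  push_cast
  ring

lemma periodic_mod {E : Type*} {g : ℝ → E} {P : ℝ} (hg : Function.Periodic g P) (n : ℕ)
    (x : ℝ) : g (x + n * P) = g x := by
  have := hg.nat_mul n
  exact this x

lemma periodic_fin {g : ℝ → ℂ} {δ : ℝ} {n : ℕ} [NeZero n] (hg : Function.Periodic g (n * δ))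
    (l : ℕ) (y : ℝ) : g (y + (Fin.ofNat n l : ℕ) * δ) = g (y + l * δ) := by
  have h1 : (l : ℝ) = (l % n : ℕ) + n * (l / n : ℕ) := by
    exact_mod_cast (Nat.mod_add_div l n).symm
  have h2 : y + (l : ℝ) * δ = (y + (l % n : ℕ) * δ) + (l / n : ℕ) * (n * δ) := by
    rw [h1]; ring
  rw [h2, periodic_mod hg]
  simp

variable {p r : ℕ} [NeZero p] [NeZero r]

/-- The coefficients of the functions at `y`. -/
noncomputable def coefAt (p r : ℕ) (δ : ℝ) (g₁ g₂ h : ℝ → ℂ) (y : ℝ) : Coef p r :=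
  (fun j => g₁ (y + (j : ℕ) * δ), fun j => g₂ (y + (j : ℕ) * δ), h y)

lemma val_coefAt {δ : ℝ} {g₁ g₂ h : ℝ → ℂ} (h1 : Function.Periodic g₁ (p * δ))
    (h2 : Function.Periodic g₂ (r * δ)) (h3 : Function.Periodic h δ) (y : ℝ) (l : ℕ) :
    val p r δ y (coefAt p r δ g₁ g₂ h y) l =
      g₁ (y + l * δ) + g₂ (y + l * δ) + ((y + l * δ : ℝ) : ℂ) * h (y + l * δ) := by
  unfold val coefAt
  simp only
  rw [periodic_fin h1, periodic_fin h2, periodic_mod h3]

omit [NeZero p] [NeZero r] in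
lemma integral_nsq {δ α : ℝ} {g₁ g₂ h : ℝ → ℂ} (c1 : Continuous g₁) (c2 : Continuous g₂)
    (c3 : Continuous h) :
    ∫ y in α..(α + δ), nsq (coefAt p r δ g₁ g₂ h y) =
      (∫ x in α..(α + p * δ), ‖g₁ x‖ ^ 2) + (∫ x in α..(α + r * δ), ‖g₂ x‖ ^ 2) +
        ∫ x in α..(α + δ), ‖h x‖ ^ 2 := by
  have i1 : ∀ j : ℕ, IntervalIntegrable (fun y => ‖g₁ (y + j * δ)‖ ^ 2) volume α (α + δ) :=
    fun j => (by fun_prop : Continuous fun y => ‖g₁ (y + j * δ)‖ ^ 2).intervalIntegrable _ _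
  have i2 : ∀ j : ℕ, IntervalIntegrable (fun y => ‖g₂ (y + j * δ)‖ ^ 2) volume α (α + δ) :=
    fun j => (by fun_prop : Continuous fun y => ‖g₂ (y + j * δ)‖ ^ 2).intervalIntegrable _ _
  have i3 : IntervalIntegrable (fun y => ‖h y‖ ^ 2) volume α (α + δ) :=
    (by fun_prop : Continuous fun y => ‖h y‖ ^ 2).intervalIntegrable _ _
  rw [split_integral (fun x => ‖g₁ x‖ ^ 2) (fun a b =>
      (by fun_prop : Continuous fun y => ‖g₁ y‖ ^ 2).intervalIntegrable _ _),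
    split_integral (fun x => ‖g₂ x‖ ^ 2) (fun a b =>
      (by fun_prop : Continuous fun y => ‖g₂ y‖ ^ 2).intervalIntegrable _ _),
    ← intervalIntegral.integral_finsetSum fun j _ => i1 j,
    ← intervalIntegral.integral_finsetSum fun j _ => i2 j,
    ← intervalIntegral.integral_add, ← intervalIntegral.integral_add]
  · refine intervalIntegral.integral_congr fun y _ => ?_
    unfold nsq coefAt
    simp only
    rw [Fin.sum_univ_eq_sum_range (fun j => ‖g₁ (y + j * δ)‖ ^ 2) p,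
      Fin.sum_univ_eq_sum_range (fun j => ‖g₂ (y + j * δ)‖ ^ 2) r]
  · refine (by fun_prop : Continuous fun y => ∑ l ∈ range p, ‖g₁ (y + l * δ)‖ ^ 2 +
      ∑ l ∈ range r, ‖g₂ (y + l * δ)‖ ^ 2).intervalIntegrable _ _
  · exact i3
  · exact (by fun_prop : Continuous fun y =>
      ∑ l ∈ range p, ‖g₁ (y + l * δ)‖ ^ 2).intervalIntegrable _ _
  · exact (by fun_prop : Continuous fun y =>
      ∑ l ∈ range r, ‖g₂ (y + l * δ)‖ ^ 2).intervalIntegrable _ _

omit [NeZero p] [NeZero r] in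
lemma continuous_nsq {δ : ℝ} {g₁ g₂ h : ℝ → ℂ} (c1 : Continuous g₁) (c2 : Continuous g₂)
    (c3 : Continuous h) : Continuous fun y => nsq (coefAt p r δ g₁ g₂ h y) := by
  unfold nsq coefAt
  fun_prop

lemma integral_total {δ α : ℝ} {g₁ g₂ h : ℝ → ℂ} (c1 : Continuous g₁) (c2 : Continuous g₂)
    (c3 : Continuous h) (h1 : Function.Periodic g₁ (p * δ))
    (h2 : Function.Periodic g₂ (r * δ)) (h3 : Function.Periodic h δ) :
    ∫ x in α..(α + (p + r : ℕ) * δ), ‖g₁ x + g₂ x + (x : ℂ) * h x‖ ^ 2 =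
      ∫ y in α..(α + δ), ∑ l ∈ range (p + r),
        ‖val p r δ y (coefAt p r δ g₁ g₂ h y) l‖ ^ 2 := by
  rw [split_integral (fun x => ‖g₁ x + g₂ x + (x : ℂ) * h x‖ ^ 2) (fun a b =>
      (by fun_prop : Continuous fun x : ℝ =>
        ‖g₁ x + g₂ x + (x : ℂ) * h x‖ ^ 2).intervalIntegrable _ _),
    ← intervalIntegral.integral_finsetSum fun (j : ℕ) _ =>
      (by fun_prop : Continuous fun y : ℝ => ‖g₁ (y + j * δ) + g₂ (y + j * δ) +
        ((y + j * δ : ℝ) : ℂ) * h (y + j * δ)‖ ^ 2).intervalIntegrable _ _]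
  refine intervalIntegral.integral_congr fun y _ => ?_
  refine sum_congr rfl fun l _ => ?_
  rw [val_coefAt h1 h2 h3]

theorem exists_bounds (hpr : Nat.Coprime p r) {δ : ℝ} (hδ : 0 < δ) (α : ℝ) :
    ∃ m M : ℝ, 0 < m ∧ ∀ g₁ g₂ h : ℝ → ℂ, Continuous g₁ → Continuous g₂ → Continuous h →
      Function.Periodic g₁ (p * δ) → Function.Periodic g₂ (r * δ) → Function.Periodic h δ →
      (∀ x, ∑ l ∈ range r, g₂ (x + l * δ) = 0) →
      m * ((∫ x in α..(α + p * δ), ‖g₁ x‖ ^ 2) + (∫ x in α..(α + r * δ), ‖g₂ x‖ ^ 2) +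
        ∫ x in α..(α + δ), ‖h x‖ ^ 2) ≤
          ∫ x in α..(α + (p + r : ℕ) * δ), ‖g₁ x + g₂ x + (x : ℂ) * h x‖ ^ 2 ∧
      ∫ x in α..(α + (p + r : ℕ) * δ), ‖g₁ x + g₂ x + (x : ℂ) * h x‖ ^ 2 ≤
        M * ((∫ x in α..(α + p * δ), ‖g₁ x‖ ^ 2) + (∫ x in α..(α + r * δ), ‖g₂ x‖ ^ 2) +
        ∫ x in α..(α + δ), ‖h x‖ ^ 2) := by
  obtain ⟨m, hm, hlow⟩ := exists_lower hpr hδ.ne' α (α + δ) (by linarith)
  obtain ⟨M, hupp⟩ := exists_upper (p := p) (r := r) δ α (α + δ)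
  refine ⟨m, M, hm, ?_⟩
  intro g₁ g₂ h c1 c2 c3 h1 h2 h3 hs
  rw [integral_total c1 c2 c3 h1 h2 h3, ← integral_nsq c1 c2 c3,
    ← intervalIntegral.integral_const_mul, ← intervalIntegral.integral_const_mul]
  have hc := continuous_nsq (p := p) (r := r) (δ := δ) c1 c2 c3
  have hc2 : Continuous fun y => ∑ l ∈ range (p + r),
      ‖val p r δ y (coefAt p r δ g₁ g₂ h y) l‖ ^ 2 := by
    unfold val coefAt
    fun_prop
  constructor
  · refine intervalIntegral.integral_mono_on (by linarith)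
      ((hc.const_mul m).intervalIntegrable _ _) (hc2.intervalIntegrable _ _) fun y hy => ?_
    refine hlow y hy _ ?_
    change ∑ j : Fin r, g₂ (y + (j : ℕ) * δ) = 0
    rw [Fin.sum_univ_eq_sum_range (fun j => g₂ (y + j * δ)) r]
    exact hs y
  · exact intervalIntegral.integral_mono_on (by linarith) (hc2.intervalIntegrable _ _)
      ((hc.const_mul M).intervalIntegrable _ _) fun y hy => hupp y hy _

end Pool.Agent.Restart
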