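import Mathlib

/-!
Orthogonality of trigonometric functions.
-/

namespace Pool.Agent.Restart

open Finset MeasureTheory

lemma integral_cos_period {ω P : ℝ} (hω : ω * P = 2 * Real.pi) (α : ℝ) (n : ℤ) :
    ∫ x in α..(α + P), Real.cos (n * ω * x) = if n = 0 then P else 0 := by
  split_ifs with h
  · subst h
    simp
  · have hω0 : ω ≠ 0 := by
      rintro rfl
      have := Real.pi_pos
      linarith
    have hn : (n * ω : ℝ) ≠ 0 := mul_ne_zero (by exact_mod_cast h) hω0
    have hd : ∀ x ∈ Set.uIcc α (α + P), HasDerivAt (fun x => Real.sin (n * ω * x) / (n * ω))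
        (Real.cos (n * ω * x)) x := by
      intro x _
      have h1 : HasDerivAt (fun x : ℝ => n * ω * x) (n * ω) x := by
        simpa using (hasDerivAt_id x).const_mul (n * ω)
      have h2 := (h1.sin).div_const (n * ω)
      rwa [mul_div_cancel_right₀ _ hn] at h2
    rw [intervalIntegral.integral_eq_sub_of_hasDerivAt hd
      ((by fun_prop : Continuous fun x => Real.cos (n * ω * x)).intervalIntegrable _ _)]
    have : (n : ℝ) * ω * (α + P) = n * ω * α + n * (2 * Real.pi) := by
      rw [← hω]; ring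
    rw [this, Real.sin_add_int_mul_two_pi, sub_self]

lemma integral_cos_cos {ω P : ℝ} (hω : ω * P = 2 * Real.pi) (α : ℝ) (m n : ℕ) :
    ∫ x in α..(α + P), Real.cos (m * ω * x) * Real.cos (n * ω * x) =
      if m = n then (if n = 0 then P else P / 2) else 0 := by
  have e : ∀ x : ℝ, Real.cos (m * ω * x) * Real.cos (n * ω * x) =
      Real.cos (((m : ℤ) - n : ℤ) * ω * x) / 2 + Real.cos (((m : ℤ) + n : ℤ) * ω * x) / 2 := by
    intro x
    have h1 : (((m : ℤ) - n : ℤ) : ℝ) * ω * x = m * ω * x - n * ω * x := by push_cast; ring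
    have h2 : (((m : ℤ) + n : ℤ) : ℝ) * ω * x = m * ω * x + n * ω * x := by push_cast; ring
    rw [h1, h2, Real.cos_sub, Real.cos_add]
    ring
  simp only [e]
  rw [intervalIntegral.integral_add
      ((by fun_prop : Continuous fun x => _).intervalIntegrable _ _)
      ((by fun_prop : Continuous fun x => _).intervalIntegrable _ _),
    intervalIntegral.integral_div, intervalIntegral.integral_div, integral_cos_period hω,
    integral_cos_period hω]
  by_cases h : m = n
  · subst h
    by_cases h0 : m = 0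
    · subst h0; simp
    · have : (m : ℤ) + m ≠ 0 := by omega
      simp [h0, this]
  · have h1 : (m : ℤ) - n ≠ 0 := by omega
    have h2 : (m : ℤ) + n ≠ 0 := by omega
    simp [h, h1, h2]

lemma integral_sin_sin {ω P : ℝ} (hω : ω * P = 2 * Real.pi) (α : ℝ) (m n : ℕ) :
    ∫ x in α..(α + P), Real.sin ((m + 1 : ℕ) * ω * x) * Real.sin ((n + 1 : ℕ) * ω * x) =
      if m = n then P / 2 else 0 := by
  have e : ∀ x : ℝ, Real.sin ((m + 1 : ℕ) * ω * x) * Real.sin ((n + 1 : ℕ) * ω * x) =
      Real.cos (((m : ℤ) - n : ℤ) * ω * x) / 2 - Real.cos (((m : ℤ) + n + 2 : ℤ) * ω * x) / 2 := by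
    intro x
    have h1 : (((m : ℤ) - n : ℤ) : ℝ) * ω * x = (m + 1 : ℕ) * ω * x - (n + 1 : ℕ) * ω * x := by
      push_cast; ring
    have h2 : (((m : ℤ) + n + 2 : ℤ) : ℝ) * ω * x =
      (m + 1 : ℕ) * ω * x + (n + 1 : ℕ) * ω * x := by push_cast; ring
    rw [h1, h2, Real.cos_sub, Real.cos_add]
    ring
  simp only [e]
  rw [intervalIntegral.integral_sub
      ((by fun_prop : Continuous fun x => _).intervalIntegrable _ _)
      ((by fun_prop : Continuous fun x => _).intervalIntegrable _ _),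
    intervalIntegral.integral_div, intervalIntegral.integral_div, integral_cos_period hω,
    integral_cos_period hω]
  have h2 : (m : ℤ) + n + 2 ≠ 0 := by omega
  by_cases h : m = n
  · subst h
    simp [h2]
  · have h1 : (m : ℤ) - n ≠ 0 := by omega
    simp [h, h1, h2]

lemma integral_sq_real {ι : Type*} [DecidableEq ι] (s : Finset ι) (e : ι → ℝ → ℝ)
    (he : ∀ i, Continuous (e i)) {a b : ℝ} (κ : ι → ℝ)
    (ho : ∀ i j, ∫ x in a..b, e i x * e j x = if i = j then κ i else 0) (c : ι → ℝ) :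
    ∫ x in a..b, (∑ i ∈ s, c i * e i x) ^ 2 = ∑ i ∈ s, κ i * c i ^ 2 := by
  have h1 : ∀ x, (∑ i ∈ s, c i * e i x) ^ 2 =
      ∑ i ∈ s, ∑ j ∈ s, (c i * c j) * (e i x * e j x) := by
    intro x
    rw [sq, sum_mul_sum]
    exact sum_congr rfl fun i _ => sum_congr rfl fun j _ => by ring
  simp only [h1]
  rw [intervalIntegral.integral_finsetSum fun i _ =>
    (by fun_prop : Continuous fun x => ∑ j ∈ s, (c i * c j) * (e i x * e j x)).intervalIntegrable
      _ _]
  refine sum_congr rfl fun i hi => ?_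
  rw [intervalIntegral.integral_finsetSum fun j _ =>
    (by fun_prop : Continuous fun x => (c i * c j) * (e i x * e j x)).intervalIntegrable _ _]
  simp only [intervalIntegral.integral_const_mul, ho]
  rw [sum_eq_single i]
  · simp; ring
  · intro j _ hj
    simp [hj.symm]
  · intro h
    exact absurd hi h

lemma integral_norm_sq {ι : Type*} [DecidableEq ι] (s : Finset ι) (e : ι → ℝ → ℝ)
    (he : ∀ i, Continuous (e i)) {a b : ℝ} (κ : ι → ℝ)
    (ho : ∀ i j, ∫ x in a..b, e i x * e j x = if i = j then κ i else 0) (c : ι → ℂ) :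
    ∫ x in a..b, ‖∑ i ∈ s, c i * (e i x : ℂ)‖ ^ 2 = ∑ i ∈ s, κ i * ‖c i‖ ^ 2 := by
  have h1 : ∀ x, ‖∑ i ∈ s, c i * (e i x : ℂ)‖ ^ 2 =
      (∑ i ∈ s, (c i).re * e i x) ^ 2 + (∑ i ∈ s, (c i).im * e i x) ^ 2 := by
    intro x
    rw [← Complex.normSq_eq_norm_sq, Complex.normSq_apply, Complex.re_sum, Complex.im_sum]
    simp only [Complex.mul_re, Complex.mul_im, Complex.ofReal_re, Complex.ofReal_im, mul_zero,
      sub_zero, zero_add]
    ring
  simp only [h1]
  rw [intervalIntegral.integral_add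
    ((by fun_prop : Continuous fun x => (∑ i ∈ s, (c i).re * e i x) ^ 2).intervalIntegrable _ _)
    ((by fun_prop : Continuous fun x => (∑ i ∈ s, (c i).im * e i x) ^ 2).intervalIntegrable _ _),
    integral_sq_real s e he κ ho, integral_sq_real s e he κ ho, ← sum_add_distrib]
  refine sum_congr rfl fun i _ => ?_
  rw [← Complex.normSq_eq_norm_sq, Complex.normSq_apply]
  ring

lemma sum_cos_shift {r n : ℕ} (hr : 0 < r) (hn : ¬ r ∣ n) (θ : ℝ) :
    ∑ l ∈ range r, Real.cos (θ + l * (2 * Real.pi * n / r)) = 0 := by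
  set ζ : ℂ := Complex.exp (2 * Real.pi * Complex.I * n / r) with hζ
  have hr' : (r : ℂ) ≠ 0 := Nat.cast_ne_zero.2 hr.ne'
  have h1 : ζ ^ r = 1 := by
    rw [hζ, ← Complex.exp_nat_mul, show (r : ℂ) * (2 * Real.pi * Complex.I * n / r) =
      n * (2 * Real.pi * Complex.I) by field_simp]
    exact Complex.exp_nat_mul_two_pi_mul_I n
  have h2 : ζ ≠ 1 := by
    rw [hζ, Ne, Complex.exp_eq_one_iff]
    rintro ⟨k, hk⟩
    have hpi : (2 * Real.pi * Complex.I : ℂ) ≠ 0 := Complex.two_pi_I_ne_zero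
    have h3 : (n : ℂ) = k * r := by
      have : (2 * Real.pi * Complex.I : ℂ) * (n / r) = (2 * Real.pi * Complex.I) * k := by
        rw [← mul_div_assoc, hk]; ring
      have := mul_left_cancel₀ hpi this
      field_simp at this
      rw [this, mul_comm]
    have h4 : (n : ℤ) = k * r := by exact_mod_cast h3
    apply hn
    have : (r : ℤ) ∣ n := ⟨k, by rw [h4]; ring⟩
    exact_mod_cast this
  have h3 : ∑ l ∈ range r, ζ ^ l = 0 := by
    rw [geom_sum_eq h2, h1, sub_self, zero_div]
  have h4 : ∀ l : ℕ, Real.cos (θ + l * (2 * Real.pi * n / r)) =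
      (Complex.exp (θ * Complex.I) * ζ ^ l).re := by
    intro l
    rw [hζ, ← Complex.exp_nat_mul, ← Complex.exp_add,
      show (θ : ℂ) * Complex.I + l * (2 * Real.pi * Complex.I * n / r) =
        ((θ + l * (2 * Real.pi * n / r) : ℝ) : ℂ) * Complex.I by push_cast; ring,
      Complex.exp_ofReal_mul_I_re]
  rw [sum_congr rfl fun l _ => h4 l, ← Complex.re_sum, ← mul_sum, h3, mul_zero, Complex.zero_re]

lemma integral_parity {a : ℝ} (O E : ℝ → ℂ) (cO : Continuous O) (cE : Continuous E)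
    (hO : ∀ x, O (-x) = - O x) (hE : ∀ x, E (-x) = E x) :
    ∫ x in (-a)..a, ‖O x + E x‖ ^ 2 = (∫ x in (-a)..a, ‖O x‖ ^ 2) + ∫ x in (-a)..a, ‖E x‖ ^ 2 := by
  have h1 : ∫ x in (-a)..a, ‖O x + E x‖ ^ 2 = ∫ x in (-a)..a, ‖O x - E x‖ ^ 2 := by
    have := intervalIntegral.integral_comp_neg (a := -a) (b := a) (fun x => ‖O x + E x‖ ^ 2)
    rw [neg_neg] at this
    rw [← this]
    refine intervalIntegral.integral_congr fun x _ => ?_
    simp only [hO, hE]
    rw [← norm_neg]
    congr 2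
    ring
  have i1 : IntervalIntegrable (fun x => ‖O x + E x‖ ^ 2) volume (-a) a :=
    (by fun_prop : Continuous fun x => ‖O x + E x‖ ^ 2).intervalIntegrable _ _
  have i2 : IntervalIntegrable (fun x => ‖O x - E x‖ ^ 2) volume (-a) a :=
    (by fun_prop : Continuous fun x => ‖O x - E x‖ ^ 2).intervalIntegrable _ _
  have i3 : IntervalIntegrable (fun x => ‖O x‖ ^ 2) volume (-a) a :=
    (by fun_prop : Continuous fun x => ‖O x‖ ^ 2).intervalIntegrable _ _
  have i4 : IntervalIntegrable (fun x => ‖E x‖ ^ 2) volume (-a) a :=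
    (by fun_prop : Continuous fun x => ‖E x‖ ^ 2).intervalIntegrable _ _
  have h2 : ∫ x in (-a)..a, (‖O x + E x‖ ^ 2 + ‖O x - E x‖ ^ 2) =
      ∫ x in (-a)..a, (2 * ‖O x‖ ^ 2 + 2 * ‖E x‖ ^ 2) := by
    refine intervalIntegral.integral_congr fun x _ => ?_
    have := parallelogram_law_with_norm ℝ (O x) (E x)
    change ‖O x + E x‖ ^ 2 + ‖O x - E x‖ ^ 2 = 2 * ‖O x‖ ^ 2 + 2 * ‖E x‖ ^ 2
    nlinarith [this]
  rw [intervalIntegral.integral_add i1 i2, ← h1,
    intervalIntegral.integral_add (i3.const_mul 2) (i4.const_mul 2),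
    intervalIntegral.integral_const_mul, intervalIntegral.integral_const_mul] at h2
  linarith

end Pool.Agent.Restart
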