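import Pool.Agent.Restart.Abstract
import Pool.Agent.Restart.Split
import Pool.Agent.Restart.Trig

/-!
The root system as functions and as elements of the Hilbert space.
-/

namespace Pool.Agent.Restart

open Finset MeasureTheory Real

/-- The interval. -/
abbrev I : Set ℝ := Set.Ioo (-(π / 2)) (π / 2)

lemma memLp_of_continuous {u : ℝ → ℂ} (hu : Continuous u) :
    MemLp u 2 ((volume : Measure ℝ).restrict I) := by
  obtain ⟨C, hC⟩ := (isCompact_Icc (a := -(π / 2)) (b := π / 2)).exists_bound_of_continuousOn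
    hu.continuousOn
  refine MemLp.of_bound hu.aestronglyMeasurable C ?_
  filter_upwards [ae_restrict_mem measurableSet_Ioo] with x hx
  exact hC x ⟨hx.1.le, hx.2.le⟩

/-- A continuous function as an element of the Hilbert space. -/
noncomputable def toSp (u : ℝ → ℂ) (hu : Continuous u) : Space := (memLp_of_continuous hu).toLp u

lemma toSp_ae (u : ℝ → ℂ) (hu : Continuous u) :
    ∀ᵐ x ∂(volume : Measure ℝ).restrict I, toSp u hu x = u x :=
  (memLp_of_continuous hu).coeFn_toLp

lemma norm_sq_eq_integral (f : Space) :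
    ‖f‖ ^ 2 = ∫ x in I, ‖f x‖ ^ 2 := by
  have h : (‖f‖ ^ 2 : ℝ) = RCLike.re (inner ℂ f f : ℂ) := by
    rw [inner_self_eq_norm_sq_to_K]
    norm_cast
  rw [h, L2.inner_def, ← integral_re (L2.integrable_inner f f)]
  refine integral_congr_ae (Filter.Eventually.of_forall fun x => ?_)
  simp only [inner_self_eq_norm_sq_to_K]
  norm_cast

lemma integral_I {E : Type*} [NormedAddCommGroup E] [NormedSpace ℝ E] (F : ℝ → E) :
    ∫ x in I, F x = ∫ x in (-(π / 2))..(π / 2), F x := by
  have hpi := Real.pi_pos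
  rw [intervalIntegral.integral_of_le (by linarith), integral_Ioc_eq_integral_Ioo]

lemma norm_sq_toSp (u : ℝ → ℂ) (hu : Continuous u) :
    ‖toSp u hu‖ ^ 2 = ∫ x in (-(π / 2))..(π / 2), ‖u x‖ ^ 2 := by
  rw [norm_sq_eq_integral, ← integral_I]
  refine integral_congr_ae ?_
  filter_upwards [toSp_ae u hu] with x hx
  rw [hx]

lemma toSp_eq_iff {u v : ℝ → ℂ} (hu : Continuous u) (hv : Continuous v)
    (h : ∀ x ∈ I, u x = v x) : toSp u hu = toSp v hv := by
  refine Lp.ext ?_
  filter_upwards [toSp_ae u hu, toSp_ae v hv, ae_restrict_mem measurableSet_Ioo] with x h1 h2 h3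
  rw [h1, h2, h x h3]

lemma toSp_sum {ι : Type*} (s : Finset ι) (c : ι → ℂ) (u : ι → ℝ → ℂ)
    (hu : ∀ i, Continuous (u i)) :
    ∑ i ∈ s, c i • toSp (u i) (hu i) =
      toSp (fun x => ∑ i ∈ s, c i * u i x) (by fun_prop) := by
  classical
  induction s using Finset.induction_on with
  | empty =>
    simp only [sum_empty]
    refine Lp.ext ?_
    filter_upwards [toSp_ae (fun _ => (0 : ℂ)) (by fun_prop), Lp.coeFn_zero (E := ℂ) (p := 2)
      ((volume : Measure ℝ).restrict I)] with x h1 h2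
    rw [h1, h2]
    rfl
  | insert i s hi ih =>
    rw [sum_insert hi, ih]
    refine Lp.ext ?_
    filter_upwards [Lp.coeFn_add (c i • toSp (u i) (hu i))
      (toSp (fun x => ∑ i ∈ s, c i * u i x) (by fun_prop)),
      Lp.coeFn_smul (c i) (toSp (u i) (hu i)), toSp_ae (u i) (hu i),
      toSp_ae (fun x => ∑ i ∈ s, c i * u i x) (by fun_prop),
      toSp_ae (fun x => ∑ j ∈ insert i s, c j * u j x) (by fun_prop)] with x h1 h2 h3 h4 h5
    rw [h1, Pi.add_apply, h2, Pi.smul_apply, h3, h4, h5, sum_insert hi, smul_eq_mul]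

/-! ### The system -/

variable (p r : ℕ)

/-- The index set of the root system. -/
abbrev Idx : Type := ℕ ⊕ {n : ℕ // ¬ r ∣ n} ⊕ ℕ ⊕ ℕ

/-- The parameter `a`. -/
noncomputable def par : ℝ := (p - r) / (p + r)

/-- The coefficient of the even correction. -/
noncomputable def corr (m : ℕ) : ℝ :=
  Real.sin (m * par p r * π) / ((-1) ^ m - Real.cos (m * par p r * π))

/-- The frequencies. -/
noncomputable def freq : Idx r → ℝ
  | .inl n => n * (2 * (p + r) / p)
  | .inr (.inl n) => (n : ℕ) * (2 * (p + r) / r)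
  | .inr (.inr (.inl n)) => (n + 1 : ℕ) * (2 * (p + r))
  | .inr (.inr (.inr n)) => (n + 1 : ℕ) * 2

/-- The root functions. -/
noncomputable def fn : Idx r → ℝ → ℂ
  | .inl n => fun x => (Real.cos (n * (2 * (p + r) / p) * x) : ℝ)
  | .inr (.inl n) => fun x => (Real.cos ((n : ℕ) * (2 * (p + r) / r) * x) : ℝ)
  | .inr (.inr (.inl n)) => fun x => (x * Real.sin ((n + 1 : ℕ) * (2 * (p + r)) * x) : ℝ)
  | .inr (.inr (.inr n)) => fun x =>
      (Real.sin ((n + 1 : ℕ) * 2 * x) + corr p r (n + 1) * Real.cos ((n + 1 : ℕ) * 2 * x) : ℝ)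

lemma fn_continuous (i : Idx r) : Continuous (fn p r i) := by
  rcases i with n | n | n | n <;> simp only [fn] <;> fun_prop

/-- The root vectors. -/
noncomputable def vec (i : Idx r) : Space := toSp (fn p r i) (fn_continuous p r i)

end Pool.Agent.Restart
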